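import Pool.Agent.Helper91.Dich.Seq5
import Pool.Agent.Helper34.XTW.Switch

/-!
Anti-concentration for a finite set of vectors in which every linear functional can be changed by
local modifications, and the mixing bound for such sets.
-/

namespace Pool.Agent.RelNet

open Finset Module Pool.Agent.Dichotomy Pool.Agent.Helper34.XTW

set_option linter.unusedSectionVars false

section

variable {V : Type} [Fintype V] [DecidableEq V]

/-- A coset of a subspace of codimension at least `t * ν` contains at most the fraction `ρ ^ t`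
of the elements of `A`. -/
def AC (A : Finset (V → ZMod 2)) (ρ : ℝ) (ν : ℕ) : Prop :=
  ∀ (t : ℕ) (M : Submodule (ZMod 2) (V → ZMod 2)) (c : V → ZMod 2),
    t * ν + finrank (ZMod 2) M ≤ Fintype.card V →
    ∀ B ⊆ A, (∀ x ∈ B, x + c ∈ M) → (B.card : ℝ) ≤ ρ ^ t * A.card

/-- The vectors supported on `N`. -/
def supp (N : Finset V) : Submodule (ZMod 2) (V → ZMod 2) :=
  Submodule.span (ZMod 2) ((N.image fun v => (Pi.single v 1 : V → ZMod 2) :
    Finset (V → ZMod 2)) : Set (V → ZMod 2))

theorem mem_supp (N : Finset V) (z : V → ZMod 2) (hz : ∀ v ∉ N, z v = 0) : z ∈ supp N := by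
  have h1 : z = ∑ v ∈ N, z v • (Pi.single v 1 : V → ZMod 2) := by
    funext u
    rw [Finset.sum_apply]
    by_cases hu : u ∈ N
    · rw [Finset.sum_eq_single u]
      · simp
      · intro v _ hv
        simp [Pi.single_apply, Ne.symm hv]
      · intro h; exact absurd hu h
    · rw [Finset.sum_eq_zero]
      · exact hz u hu
      · intro v hv
        have : u ≠ v := by rintro rfl; exact hu hv
        simp [this]
  rw [h1]
  refine Submodule.sum_mem _ fun v hv => Submodule.smul_mem _ _ (Submodule.subset_span ?_)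
  rw [Finset.mem_coe, Finset.mem_image]
  exact ⟨v, hv, rfl⟩

theorem finrank_supp (N : Finset V) : finrank (ZMod 2) (supp N) ≤ N.card :=
  (finrank_span_finset_le_card _).trans card_image_le

/-- **Anti-concentration.** -/
theorem ac_of_patch (A : Finset (V → ZMod 2)) (ν : ℕ) (hν : 1 ≤ ν)
    (h : ∀ φ : (V → ZMod 2) →ₗ[ZMod 2] ZMod 2, φ ≠ 0 → ∃ N : Finset V, N.card ≤ ν ∧
      ∀ x ∈ A, ∃ y ∈ A, (∀ v ∉ N, y v = x v) ∧ φ y ≠ φ x) :
    AC A (2 ^ ν / (2 ^ ν + 1)) ν := by
  classical
  intro t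
  induction t with
  | zero =>
    intro M c _ B hB _
    rw [pow_zero, one_mul]
    exact_mod_cast card_le_card hB
  | succ t ih =>
    intro M c ht B hB hBM
    have hM : M < ⊤ := by
      rw [lt_top_iff_ne_top]
      rintro rfl
      rw [finrank_top, Module.finrank_fintype_fun_eq_card] at ht
      have : 0 < (t + 1) * ν := by positivity
      omega
    obtain ⟨φ, hφ, hMφ⟩ := Submodule.exists_le_ker_of_lt_top M hM
    obtain ⟨N, hN, hpatch⟩ := h φ hφ
    have hrank : finrank (ZMod 2) (M ⊔ supp N : Submodule (ZMod 2) (V → ZMod 2)) ≤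
        finrank (ZMod 2) M + ν := by
      have h1 := Submodule.finrank_add_le_finrank_add_finrank M (supp N)
      have h2 := finrank_supp N
      omega
    have hstep := ih (M ⊔ supp N) c (by rw [Nat.succ_mul] at ht; omega)
      (A.filter fun x => x + c ∈ M ⊔ supp N) (filter_subset _ _) (fun x hx => (mem_filter.1 hx).2)
    have hsw := switch_step (A.filter fun x => x + c ∈ M ⊔ supp N) N (fun x => x + c ∈ M) ν hN (by
      intro x hx
      by_cases hxM : x + c ∈ M
      · obtain ⟨y, hyA, hyx, hφy⟩ := hpatch x (mem_filter.1 hx).1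
        have hyx' : y + x ∈ supp N := by
          refine mem_supp N _ fun v hv => ?_
          rw [Pi.add_apply, hyx v hv]
          exact zmod2_add_self _
        refine ⟨y, mem_filter.2 ⟨hyA, ?_⟩, hyx, fun hyM => hφy ?_⟩
        · have h1 : y + c = (x + c) + (y + x) := by
            have : x + x = 0 := pi_add_self x
            calc y + c = y + c + 0 := (add_zero _).symm
              _ = y + c + (x + x) := by rw [this]
              _ = (x + c) + (y + x) := by abel
          rw [h1]
          exact Submodule.add_mem_sup hxM hyx'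
        · have h1 := LinearMap.mem_ker.1 (hMφ hyM)
          have h2 := LinearMap.mem_ker.1 (hMφ hxM)
          rw [map_add] at h1 h2
          exact add_right_cancel (h1.trans h2.symm)
      · exact ⟨x, hx, fun _ _ => rfl, hxM⟩)
    have hBsub : B ⊆ (A.filter fun x => x + c ∈ M ⊔ supp N).filter fun x => x + c ∈ M := by
      intro x hx
      refine mem_filter.2 ⟨mem_filter.2 ⟨hB hx, ?_⟩, hBM x hx⟩
      exact Submodule.mem_sup_left (hBM x hx)
    have h1 : (B.card : ℝ) ≤ (((A.filter fun x => x + c ∈ M ⊔ supp N).filter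
        fun x => x + c ∈ M).card : ℝ) := by exact_mod_cast card_le_card hBsub
    calc (B.card : ℝ) ≤ _ := h1
      _ ≤ 2 ^ ν / (2 ^ ν + 1) * ((A.filter fun x => x + c ∈ M ⊔ supp N).card : ℝ) := hsw
      _ ≤ 2 ^ ν / (2 ^ ν + 1) * ((2 ^ ν / (2 ^ ν + 1)) ^ t * A.card) :=
          mul_le_mul_of_nonneg_left hstep (by positivity)
      _ = (2 ^ ν / (2 ^ ν + 1)) ^ (t + 1) * A.card := by rw [pow_succ]; ring

/-- The tuples in a coset of a subspace are few. -/
theorem few_tuples6 [DecidableEq (V → ZMod 2)] {A : Finset (V → ZMod 2)} {ρ : ℝ} (hρ : 0 ≤ ρ)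
    {ν : ℕ} (hA : AC A ρ ν) (M : Submodule (ZMod 2) (V → ZMod 2))
    [DecidablePred fun x => x ∈ M] (t k : ℕ)
    (ht : t * ν + finrank (ZMod 2) M ≤ Fintype.card V) :
    (((Fintype.piFinset fun _ : Fin (k + 1) => A).filter
      fun τ => ∀ i, τ i + τ 0 ∈ M).card : ℝ) ≤
      A.card * (ρ ^ t * A.card) ^ k := by
  have h1 : ((Fintype.piFinset fun _ : Fin (k + 1) => A).filter
      fun τ => ∀ i, τ i + τ 0 ∈ M).card ≤
      (A.sigma fun c => Fintype.piFinset fun _ : Fin k =>
        A.filter fun x => x + c ∈ M).card := by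
    refine Finset.card_le_card_of_injOn (fun τ => ⟨τ 0, fun i => τ i.succ⟩) ?_ ?_
    · intro τ hτ
      rw [Finset.mem_coe, mem_filter, Fintype.mem_piFinset] at hτ
      rw [Finset.mem_coe, mem_sigma]
      refine ⟨hτ.1 0, ?_⟩
      rw [Fintype.mem_piFinset]
      intro i
      exact mem_filter.2 ⟨hτ.1 _, hτ.2 _⟩
    · intro τ _ τ' _ h
      have h0 : τ 0 = τ' 0 := congrArg Sigma.fst h
      have h2 : (fun i : Fin k => τ i.succ) = fun i => τ' i.succ := by
        have := (Sigma.mk.inj h).2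
        exact eq_of_heq this
      funext i
      refine Fin.cases h0 (fun j => congrFun h2 j) i
  rw [card_sigma] at h1
  have h2 : (((Fintype.piFinset fun _ : Fin (k + 1) => A).filter
      fun τ => ∀ i, τ i + τ 0 ∈ M).card : ℝ) ≤ ∑ c ∈ A,
      ((Fintype.piFinset fun _ : Fin k => A.filter fun x => x + c ∈ M).card : ℝ) := by
    exact_mod_cast h1
  refine h2.trans ?_
  have h3 : ∀ c ∈ A, ((Fintype.piFinset fun _ : Fin k =>
      A.filter fun x => x + c ∈ M).card : ℝ) ≤
      (ρ ^ t * A.card) ^ k := by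
    intro c _
    rw [Fintype.card_piFinset, Finset.prod_const, Finset.card_univ, Fintype.card_fin]
    push_cast
    exact pow_le_pow_left₀ (Nat.cast_nonneg _) (hA t M c ht _ (filter_subset _ _)
      (fun x hx => (mem_filter.1 hx).2)) _
  refine (Finset.sum_le_card_nsmul _ _ _ h3).trans ?_
  rw [nsmul_eq_mul]

/-- **The mixing bound.** -/
theorem mixing_bound6 {m : ℕ} (G : SimpleGraph V) (P Q : (V → ZMod 2) →ₗ[ZMod 2] (V → ZMod 2))
    (f : ℕ → V × V) (A : Finset (V → ZMod 2)) (hAG : ∀ x ∈ A, x ∈ VC G) {ρ : ℝ} (hρ : 0 ≤ ρ)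
    {ν : ℕ} (hA : AC A ρ ν)
    (hPQ : ∀ z, P z + Q z = z) (hf : Good G P Q f m) (k t : ℕ)
    (ht : t * ν ≤ (m + 1) / 2) [∀ x y, Decidable (P x + Q y ∈ A)] :
    ((((A ×ˢ A).filter fun p => P p.1 + Q p.2 ∈ A).card : ℝ)) ^ (2 * (k + 1)) ≤
      (16 ^ m * (ρ ^ t) ^ k + ρ ^ t) * (A.card : ℝ) ^ (4 * (k + 1)) := by
  classical
  obtain ⟨n, hcardV⟩ : ∃ n, Fintype.card V = n := ⟨_, rfl⟩
  obtain ⟨a, ha⟩ : ∃ a : ℝ, a = (A.card : ℝ) := ⟨_, rfl⟩
  have ha0 : 0 ≤ a := by rw [ha]; exact Nat.cast_nonneg _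
  have hpm := power_mean A (fun x y => P x + Q y ∈ A) k
  -- good and bad types
  let BadT : (Fin m → Finset (ZMod 2 × ZMod 2)) → Prop := fun S =>
    finrank (ZMod 2) (ZZ P f S) + (m + 1) / 2 ≤ n
  have hc : ∀ τ : Fin (k + 1) → V → ZMod 2,
      (((A ×ˢ A).filter fun p => ∀ i, (P (τ i) + Q p.1 ∈ A) ∧
        (P (τ i) + Q p.2 ∈ A)).card : ℝ) ≤
        (if BadT (typ P f m τ) then a ^ 2 else 0) + ρ ^ t * a ^ 2 := by
    intro τ
    by_cases hb : BadT (typ P f m τ)
    · rw [if_pos hb]
      have h1 : (((A ×ˢ A).filter fun p => ∀ i, (P (τ i) + Q p.1 ∈ A) ∧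
        (P (τ i) + Q p.2 ∈ A)).card : ℝ) ≤ a ^ 2 := by
        have := card_filter_le (A ×ˢ A) fun p => ∀ i, (P (τ i) + Q p.1 ∈ A) ∧
          (P (τ i) + Q p.2 ∈ A)
        rw [card_product] at this
        rw [ha, sq]
        exact_mod_cast this
      have h2 : 0 ≤ ρ ^ t * a ^ 2 := by positivity
      linarith
    · rw [if_neg hb, zero_add]
      have hdet := det5 G P Q f (typ P f m τ) hPQ hf
      rw [hcardV] at hdet
      have hb' : n < finrank (ZMod 2) (ZZ P f (typ P f m τ)) + (m + 1) / 2 := not_le.1 hb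
      have htK : t * ν + finrank (ZMod 2) (LL Q f (typ P f m τ)) ≤ Fintype.card V := by
        rw [hcardV]; omega
      have h1 : (((A ×ˢ A).filter fun p => ∀ i, (P (τ i) + Q p.1 ∈ A) ∧
        (P (τ i) + Q p.2 ∈ A)).card : ℝ) ≤
          ∑ c ∈ A, ((A.filter fun x => x + c ∈ LL Q f (typ P f m τ)).card : ℝ) := by
        have h2 : ((A ×ˢ A).filter fun p => ∀ i, (P (τ i) + Q p.1 ∈ A) ∧
            (P (τ i) + Q p.2 ∈ A)).card ≤
            (A.sigma fun c => A.filter fun x => x + c ∈ LL Q f (typ P f m τ)).card := by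
          refine Finset.card_le_card_of_injOn (fun p => ⟨p.1, p.2⟩) ?_ ?_
          · intro p hp
            rw [Finset.mem_coe, mem_filter, mem_product] at hp
            rw [Finset.mem_coe, mem_sigma]
            refine ⟨hp.1.1, mem_filter.2 ⟨hp.1.2, ?_⟩⟩
            exact mem_LL_of_all G P Q f (fun i hi => (hf i hi).1)
              (fun i => ⟨hAG _ (hp.2 i).1, hAG _ (hp.2 i).2⟩)
          · intro p _ p' _ h
            have h0 : p.1 = p'.1 := congrArg Sigma.fst h
            have h2 : p.2 = p'.2 := eq_of_heq (Sigma.mk.inj h).2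
            exact Prod.ext h0 h2
        rw [card_sigma] at h2
        exact_mod_cast h2
      refine h1.trans ?_
      refine (Finset.sum_le_card_nsmul _ _ _ fun c _ =>
        hA t (LL Q f (typ P f m τ)) c htK _ (filter_subset _ _)
          (fun x hx => (mem_filter.1 hx).2)).trans ?_
      rw [nsmul_eq_mul, ← ha]
      apply le_of_eq; ring
  -- the number of bad tuples
  have hbad : (((Fintype.piFinset fun _ : Fin (k + 1) => A).filter
      fun τ => BadT (typ P f m τ)).card : ℝ) ≤ 16 ^ m * (a * (ρ ^ t * a) ^ k) := by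
    have h1 : ((Fintype.piFinset fun _ : Fin (k + 1) => A).filter
        fun τ => BadT (typ P f m τ)) ⊆
        ((univ : Finset (Fin m → Finset (ZMod 2 × ZMod 2))).filter fun S => BadT S).biUnion
          fun S => ((Fintype.piFinset fun _ : Fin (k + 1) => A).filter
              fun τ => ∀ i, τ i + τ 0 ∈ ZZ P f S) := by
      intro τ hτ
      rw [mem_filter] at hτ
      rw [mem_biUnion]
      exact ⟨typ P f m τ, mem_filter.2 ⟨mem_univ _, hτ.2⟩,
        mem_filter.2 ⟨hτ.1, fun i => mem_ZZ_typ P f τ i⟩⟩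
    have h2 := (card_le_card h1).trans card_biUnion_le
    have h3 : (((Fintype.piFinset fun _ : Fin (k + 1) => A).filter
        fun τ => BadT (typ P f m τ)).card : ℝ) ≤
        ∑ S ∈ (univ : Finset (Fin m → Finset (ZMod 2 × ZMod 2))).filter fun S => BadT S,
          (((Fintype.piFinset fun _ : Fin (k + 1) => A).filter
              fun τ => ∀ i, τ i + τ 0 ∈ ZZ P f S).card : ℝ) := by exact_mod_cast h2
    refine h3.trans ?_
    have h4 : ∀ S ∈ (univ : Finset (Fin m → Finset (ZMod 2 × ZMod 2))).filter fun S => BadT S,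
          (((Fintype.piFinset fun _ : Fin (k + 1) => A).filter
              fun τ => ∀ i, τ i + τ 0 ∈ ZZ P f S).card : ℝ) ≤ a * (ρ ^ t * a) ^ k := by
      intro S hS
      have hS' : finrank (ZMod 2) (ZZ P f S) + (m + 1) / 2 ≤ n := (mem_filter.1 hS).2
      rw [ha]
      refine few_tuples6 hρ hA (ZZ P f S) t k ?_
      rw [hcardV]; omega
    refine (Finset.sum_le_card_nsmul _ _ _ h4).trans ?_
    rw [nsmul_eq_mul]
    refine mul_le_mul_of_nonneg_right ?_ (by positivity)
    have h5 : ((univ : Finset (Fin m → Finset (ZMod 2 × ZMod 2))).filter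
        fun S => BadT S).card ≤ 16 ^ m := by
      refine (card_filter_le _ _).trans (le_of_eq ?_)
      rw [card_univ, Fintype.card_fun, Fintype.card_finset, Fintype.card_prod, ZMod.card,
        Fintype.card_fin]
      norm_num
    exact_mod_cast h5
  have hsum : ∑ τ ∈ Fintype.piFinset (fun _ : Fin (k + 1) => A),
      (((A ×ˢ A).filter fun p => ∀ i, (P (τ i) + Q p.1 ∈ A) ∧
        (P (τ i) + Q p.2 ∈ A)).card : ℝ) ≤
      16 ^ m * (a * (ρ ^ t * a) ^ k) * a ^ 2 + a ^ (k + 1) * (ρ ^ t * a ^ 2) := by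
    refine (Finset.sum_le_sum fun τ _ => hc τ).trans ?_
    rw [Finset.sum_add_distrib]
    refine add_le_add ?_ ?_
    · rw [← Finset.sum_filter, Finset.sum_const, nsmul_eq_mul]
      exact mul_le_mul_of_nonneg_right hbad (by positivity)
    · rw [Finset.sum_const, nsmul_eq_mul, Fintype.card_piFinset, Finset.prod_const,
        Finset.card_univ, Fintype.card_fin, ha]
      push_cast
      exact le_rfl
  rw [← ha] at hpm ⊢
  refine hpm.trans ?_
  refine (mul_le_mul_of_nonneg_left hsum (by positivity)).trans ?_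
  apply le_of_eq
  rw [mul_pow]
  ring

end

end Pool.Agent.RelNet
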