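import Pool.Agent.Helper91.RN.Str6

/-!
Properties of the target: local patches, degrees, expansion, size, small subsets.
-/

namespace Pool.Agent.RelNet

open Finset Module Pool.Agent.Dichotomy Pool.Agent.Helper34.XTW

set_option linter.unusedSectionVars false

section

variable {V : Type} [Fintype V] [DecidableEq V] {m k : ℕ} {G : SimpleGraph V}
  {h : Fin m × Fin k → V} {K : Finset (Fin k)} {S0 : Set (Fin k → ZMod 2)}

theorem z01 : ∀ a : ZMod 2, a = 0 ∨ a = 1 := by decide

/-- Every edge can be given each of its three patterns by changes near the edge. -/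
theorem tgt_patch6 (hh : Function.Injective h) (hK : ∀ i ∈ K, ∀ b : ZMod 2, ∃ s ∈ S0, s i = b)
    (u v : Ut V m k) (huv : (Gr G h K).Adj u v) (p q : ZMod 2) (hpq : p = 1 ∨ q = 1)
    (x : Ut V m k → ZMod 2) (hx : x ∈ Tgt G h K S0) :
    ∃ y ∈ Tgt G h K S0, (∀ w, w ≠ u → w ≠ v → ¬ (GrB G h K).Adj u w →
      ¬ (GrB G h K).Adj v w → y w = x w) ∧ y u = p ∧ y v = q := by
  classical
  -- outside of the neighbourhood of a hub
  have out1 : ∀ (a : V) (w : Ut V m k), w ≠ Sum.inl a → ¬ (GrB G h K).Adj (Sum.inl a) w →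
      (∀ b, w = Sum.inl b → ¬ G.Adj a b) ∧ ¬ ∃ j, InB h j (Sum.inl a) ∧ InB h j w := by
    intro a w hw hadj
    refine ⟨fun b hb hab => ?_, fun hj => ?_⟩
    · subst hb
      exact hadj ⟨Ne.symm hw, Or.inl hab⟩
    · exact hadj ⟨Ne.symm hw, Or.inr hj⟩
  -- two hubs, the second one keeps the value one
  have hub : ∀ a b : V, G.Adj a b → ∀ c : ZMod 2, ∃ y ∈ Tgt G h K S0,
      (∀ w, w ≠ Sum.inl a → ¬ (GrB G h K).Adj (Sum.inl a) w → y w = x w) ∧
      y (Sum.inl a) = c ∧ y (Sum.inl b) = 1 := by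
    intro a b hab c
    obtain ⟨y, hy, h1, h2, h3, h4, h5, h6, h7⟩ := open_hub hh hK hx a
    refine ⟨setH a c y, h7 c, ?_, setH_self a c y, ?_⟩
    · rintro (w | r) hw hw'
      · obtain ⟨e1, e2⟩ := out1 a _ hw hw'
        have hwa : w ≠ a := fun e => hw (by rw [e])
        rw [setH_ne hwa]
        exact h1 w hwa (e1 w rfl) e2
      · obtain ⟨e1, e2⟩ := out1 a _ hw hw'
        rw [setH_inr]
        exact h2 r e2
    · rw [setH_ne (G.ne_of_adj hab).symm]
      exact h5 b hab
  -- a hub and its variable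
  have att : ∀ r : Fin m × Fin k, r.2 ∈ K → ∀ c d : ZMod 2, (c = 1 ∨ d = 1) →
      ∃ y ∈ Tgt G h K S0, (∀ w, w ≠ Sum.inl (h r) → ¬ (GrB G h K).Adj (Sum.inl (h r)) w →
        y w = x w) ∧ y (Sum.inl (h r)) = c ∧ y (Sum.inr r) = d := by
    rintro ⟨j, i⟩ hi c d hcd
    rcases z01 c with rfl | rfl
    · have hd : d = 1 := hcd.resolve_left (by decide)
      subst hd
      obtain ⟨y, hy, h1, h2, h3, h4, h5, h6, h7⟩ := open_hub hh hK hx (h (j, i))
      refine ⟨setH (h (j, i)) 0 y, h7 0, ?_, setH_self _ _ y, ?_⟩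
      · rintro (w | r) hw hw'
        · obtain ⟨e1, e2⟩ := out1 _ _ hw hw'
          have hwa : w ≠ h (j, i) := fun e => hw (by rw [e])
          rw [setH_ne hwa]
          exact h1 w hwa (e1 w rfl) e2
        · obtain ⟨e1, e2⟩ := out1 _ _ hw hw'
          rw [setH_inr]
          exact h2 r e2
      · rw [setH_inr]
        exact h6 _ rfl hi
    · obtain ⟨s, hs, hsd⟩ := hK i hi d
      obtain ⟨y, hy, h1, h2, h3, h4⟩ := open_block (h := h) hx j
      refine ⟨setB j s y, h4 s hs, ?_, ?_, ?_⟩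
      · rintro (w | ⟨j', i'⟩) hw hw'
        · obtain ⟨e1, e2⟩ := out1 _ _ hw hw'
          rw [setB_inl]
          refine h1 w ?_
          rintro ⟨i', hi'⟩
          exact e2 ⟨j, ⟨i, rfl⟩, ⟨i', hi'⟩⟩
        · obtain ⟨e1, e2⟩ := out1 _ _ hw hw'
          have hjj : j' ≠ j := by
            rintro rfl
            exact e2 ⟨j', ⟨i, rfl⟩, rfl⟩
          rw [setB_ne hjj]
          exact h2 _
      · rw [setB_inl]; exact h3 i
      · rw [setB_self]; exact hsd
  rcases u with a | r <;> rcases v with b | t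
  · -- two hubs
    rcases z01 q with rfl | rfl
    · have hp : p = 1 := hpq.resolve_right (by decide)
      subst hp
      obtain ⟨y, hy, h1, h2, h3⟩ := hub b a (show G.Adj a b from huv).symm 0
      exact ⟨y, hy, fun w _ hw' _ hw2 => h1 w hw' hw2, h3, h2⟩
    · obtain ⟨y, hy, h1, h2, h3⟩ := hub a b huv p
      exact ⟨y, hy, fun w hw _ hw1 _ => h1 w hw hw1, h2, h3⟩
  · obtain ⟨rfl, ht⟩ := (show a = h t ∧ t.2 ∈ K from huv)
    obtain ⟨y, hy, h1, h2, h3⟩ := att t ht p q hpq
    exact ⟨y, hy, fun w hw _ hw1 _ => h1 w hw hw1, h2, h3⟩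
  · obtain ⟨rfl, ht⟩ := (show b = h r ∧ r.2 ∈ K from huv)
    obtain ⟨y, hy, h1, h2, h3⟩ := att r ht q p hpq.symm
    exact ⟨y, hy, fun w _ hw' _ hw2 => h1 w hw' hw2, h3, h2⟩
  · exact absurd huv id

/-- The degrees. -/
theorem grB_degree6 (hh : Function.Injective h) {D : ℕ}
    (hD : ∀ v, (G.neighborSet v).ncard ≤ D) (u : Ut V m k) :
    ((GrB G h K).neighborSet u).ncard ≤ D + 2 * k := by
  classical
  let B : Fin m → Finset (Ut V m k) := fun j =>
    ((Finset.univ : Finset (Fin k)).image fun i => (Sum.inl (h (j, i)) : Ut V m k)) ∪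
      ((Finset.univ : Finset (Fin k)).image fun i => (Sum.inr (j, i) : Ut V m k))
  have hB : ∀ j, (B j).card ≤ 2 * k := by
    intro j
    refine (card_union_le _ _).trans ?_
    have h1 := card_image_le (s := (Finset.univ : Finset (Fin k)))
      (f := fun i => (Sum.inl (h (j, i)) : Ut V m k))
    have h2 := card_image_le (s := (Finset.univ : Finset (Fin k)))
      (f := fun i => (Sum.inr (j, i) : Ut V m k))
    rw [card_univ, Fintype.card_fin] at h1 h2
    omega
  have hBm : ∀ j w, InB h j w → w ∈ B j := by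
    rintro j (v | ⟨j', i⟩) hw
    · obtain ⟨i, rfl⟩ := hw
      exact mem_union_left _ (mem_image.2 ⟨i, mem_univ _, rfl⟩)
    · have : j' = j := hw
      subst this
      exact mem_union_right _ (mem_image.2 ⟨i, mem_univ _, rfl⟩)
  -- the block of `u`
  obtain ⟨C, hC, hCm⟩ : ∃ C : Finset (Ut V m k), C.card ≤ 2 * k ∧
      ∀ j w, InB h j u → InB h j w → w ∈ C := by
    by_cases hu : ∃ j, InB h j u
    · obtain ⟨j, hj⟩ := hu
      refine ⟨B j, hB j, fun j' w hj' hw => ?_⟩
      have hjj : j' = j := by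
        rcases u with v | p
        · obtain ⟨i, hi⟩ := hj
          obtain ⟨i', hi'⟩ := hj'
          exact congrArg Prod.fst (hh (hi'.trans hi.symm))
        · exact (show p.1 = j' from hj').symm.trans hj
      subst hjj
      exact hBm _ w hw
    · exact ⟨∅, by simp, fun j w hj _ => absurd ⟨j, hj⟩ hu⟩
  obtain ⟨F, hF, hFm⟩ : ∃ F : Finset (Ut V m k), F.card ≤ D ∧ ∀ w : Ut V m k,
      (Gr G h K).Adj u w → w ∈ F ∨ ∃ j, InB h j u ∧ InB h j w := by
    rcases u with v | p
    · refine ⟨(Set.toFinite (G.neighborSet v)).toFinset.image fun b => (Sum.inl b : Ut V m k),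
        card_image_le.trans ?_, ?_⟩
      · rw [← Set.ncard_eq_toFinset_card]; exact hD v
      · rintro (b | p) hadj
        · left
          rw [mem_image]
          exact ⟨b, (Set.Finite.mem_toFinset _).2 hadj, rfl⟩
        · right
          obtain ⟨rfl, -⟩ := (show v = h p ∧ p.2 ∈ K from hadj)
          exact ⟨p.1, ⟨p.2, rfl⟩, rfl⟩
    · refine ⟨∅, by simp, ?_⟩
      rintro (b | q) hadj
      · right
        obtain ⟨rfl, -⟩ := (show b = h p ∧ p.2 ∈ K from hadj)
        exact ⟨p.1, rfl, ⟨p.2, rfl⟩⟩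
      · exact absurd hadj id
  have hsub : (GrB G h K).neighborSet u ⊆ ((F ∪ C : Finset (Ut V m k)) : Set (Ut V m k)) := by
    intro w hw
    rw [mem_coe, mem_union]
    rcases hw.2 with h3 | ⟨j, h3, h4⟩
    · rcases hFm w h3 with h5 | ⟨j, h5, h6⟩
      · exact Or.inl h5
      · exact Or.inr (hCm j w h5 h6)
    · exact Or.inr (hCm j w h3 h4)
  calc ((GrB G h K).neighborSet u).ncard
      ≤ ((F ∪ C : Finset (Ut V m k)) : Set (Ut V m k)).ncard :=
        Set.ncard_le_ncard hsub (Finset.finite_toSet _)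
    _ = (F ∪ C).card := Set.ncard_coe_finset _
    _ ≤ F.card + C.card := card_union_le _ _
    _ ≤ D + 2 * k := Nat.add_le_add hF hC

/-- The expansion hypothesis. -/
theorem star6 (hh : Function.Injective h) (hG : Exp G) (h2 : 2 ≤ Fintype.card V) (a : ℕ) :
    Star (Gr G h K) (XK K) a (a / 7) := by
  classical
  intro F F' hF hF'
  obtain ⟨S, hS⟩ : ∃ S : Set (Ut V m k), S = {u | ∃ v, (Gr G h K).Adj u v ∧
      ¬ ((u ∈ F ∧ u ∉ F') ∧ (v ∈ F ∧ v ∉ F')) ∧ ¬ ((u ∈ F' ∧ u ∉ F) ∧ (v ∈ F' ∧ v ∉ F))} :=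
    ⟨_, rfl⟩
  rw [← hS]
  have good : ∀ u v, (Gr G h K).Adj u v → u ∉ S → ((u ∈ F ∧ u ∉ F') ∧ (v ∈ F ∧ v ∉ F')) ∨
      ((u ∈ F' ∧ u ∉ F) ∧ (v ∈ F' ∧ v ∉ F)) := by
    intro u v huv hu
    by_contra hcon
    rw [not_or] at hcon
    apply hu
    rw [hS]
    exact ⟨v, huv, hcon.1, hcon.2⟩
  have nbr : ∀ u : V, ∃ v, G.Adj u v := by
    intro u
    have h1 := hG {u} (by rw [card_singleton]; omega)
    rw [card_singleton] at h1
    have h3 : (bd G {u}).Nonempty := by rw [← card_pos]; omega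
    obtain ⟨v, hv⟩ := h3
    obtain ⟨-, s, hs, hadj⟩ := mem_bd.1 hv
    rw [mem_singleton] at hs; subst hs
    exact ⟨v, hadj⟩
  have hinl : Function.Injective fun v : V => (Sum.inl v : Ut V m k) := Sum.inl_injective
  have hsubS : ∀ T : Finset V, (∀ v ∈ T, (Sum.inl v : Ut V m k) ∈ S) → T.card ≤ S.ncard := by
    intro T hT
    rw [← Finset.card_image_of_injective T hinl, ← Set.ncard_coe_finset]
    refine Set.ncard_le_ncard ?_ (Set.toFinite _)
    intro u hu
    rw [Finset.mem_coe, Finset.mem_image] at hu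
    obtain ⟨v, hv, rfl⟩ := hu
    exact hT v hv
  obtain ⟨Sh, hSh⟩ : ∃ Sh : Finset V, ∀ v, v ∈ Sh ↔ (Sum.inl v : Ut V m k) ∈ S :=
    ⟨univ.filter fun v => (Sum.inl v : Ut V m k) ∈ S, fun v => by simp⟩
  have hShc : Sh.card ≤ S.ncard := hsubS Sh fun v hv => (hSh v).1 hv
  let Pu : Set (Ut V m k) → Set (Ut V m k) → Finset V := fun F F' =>
    univ.filter fun v => (Sum.inl v : Ut V m k) ∈ F ∧ (Sum.inl v : Ut V m k) ∉ F' ∧
      (Sum.inl v : Ut V m k) ∉ S
  have memPu : ∀ F F' v, v ∈ Pu F F' ↔ (Sum.inl v : Ut V m k) ∈ F ∧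
      (Sum.inl v : Ut V m k) ∉ F' ∧ (Sum.inl v : Ut V m k) ∉ S := by
    intro F F' v; simp [Pu]
  have hcount : ∀ F F' : Set (Ut V m k), (∀ u v, (Gr G h K).Adj u v → u ∉ S →
      ((u ∈ F ∧ u ∉ F') ∧ (v ∈ F ∧ v ∉ F')) ∨ ((u ∈ F' ∧ u ∉ F) ∧ (v ∈ F' ∧ v ∉ F))) →
      a ≤ (F ∩ ((XK K : Finset (Ut V m k)) : Set (Ut V m k))).ncard →
      a ≤ 2 * S.ncard + 2 * (Pu F F').card := by
    intro F F' good hF
    let Q1 : Finset (Ut V m k) := (Pu F F').image fun v => Sum.inl v
    let Q2 : Finset (Ut V m k) := ((univ : Finset (Fin m × Fin k)).filter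
      fun p => h p ∈ Pu F F').image fun p => Sum.inr p
    let Q3 : Finset (Ut V m k) := ((univ : Finset (Fin m × Fin k)).filter
      fun p => h p ∈ Sh).image fun p => Sum.inr p
    have hsub : F ∩ ((XK K : Finset (Ut V m k)) : Set (Ut V m k)) ⊆
        S ∪ ((Q1 ∪ Q2 ∪ Q3 : Finset (Ut V m k)) : Set (Ut V m k)) := by
      rintro (v | p) ⟨hu, hX⟩
      · by_cases hvS : (Sum.inl v : Ut V m k) ∈ S
        · exact Or.inl hvS
        · right
          obtain ⟨w, hw⟩ := nbr v
          have hg := good (Sum.inl v) (Sum.inl w) hw hvS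
          rw [mem_coe, mem_union, mem_union]
          left; left
          refine mem_image.2 ⟨v, (memPu _ _ _).2 ?_, rfl⟩
          rcases hg with hg | hg
          · exact ⟨hg.1.1, hg.1.2, hvS⟩
          · exact absurd hu hg.1.2
      · right
        have hp : p.2 ∈ K := (inr_mem_XK K).1 (mem_coe.1 hX)
        rw [mem_coe, mem_union, mem_union]
        by_cases hvS : (Sum.inl (h p) : Ut V m k) ∈ S
        · right
          exact mem_image.2 ⟨p, mem_filter.2 ⟨mem_univ _, (hSh _).2 hvS⟩, rfl⟩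
        · left; right
          refine mem_image.2 ⟨p, mem_filter.2 ⟨mem_univ _, (memPu _ _ _).2 ?_⟩, rfl⟩
          rcases good (Sum.inl (h p)) (Sum.inr p) ⟨rfl, hp⟩ hvS with hg | hg
          · exact ⟨hg.1.1, hg.1.2, hvS⟩
          · exact absurd hu hg.2.2
    have c1 := Set.ncard_le_ncard hsub (Set.toFinite _)
    have c2 := Set.ncard_union_le S ((Q1 ∪ Q2 ∪ Q3 : Finset (Ut V m k)) : Set (Ut V m k))
    rw [Set.ncard_coe_finset] at c2
    have c3 := card_union_le (Q1 ∪ Q2) Q3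
    have c4 := card_union_le Q1 Q2
    have c5 : Q1.card ≤ (Pu F F').card := card_image_le
    have c6 : Q2.card ≤ (Pu F F').card := by
      refine card_image_le.trans ?_
      refine card_le_card_of_injOn h ?_ (fun p _ q _ hpq => hh hpq)
      intro p hp
      exact mem_coe.2 (mem_filter.1 (mem_coe.1 hp)).2
    have c7 : Q3.card ≤ Sh.card := by
      refine card_image_le.trans ?_
      refine card_le_card_of_injOn h ?_ (fun p _ q _ hpq => hh hpq)
      intro p hp
      exact mem_coe.2 (mem_filter.1 (mem_coe.1 hp)).2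
    omega
  have key : ∀ F F' : Set (Ut V m k), (∀ u v, (Gr G h K).Adj u v → u ∉ S →
      ((u ∈ F ∧ u ∉ F') ∧ (v ∈ F ∧ v ∉ F')) ∨ ((u ∈ F' ∧ u ∉ F) ∧ (v ∈ F' ∧ v ∉ F))) →
      a ≤ 2 * S.ncard + 2 * (Pu F F').card → 2 * (Pu F F').card ≤ Fintype.card V →
      a / 7 ≤ S.ncard := by
    intro F F' good h1 h3
    have h4 := hG _ h3
    have h5 : (bd G (Pu F F')).card ≤ S.ncard := by
      refine hsubS _ fun t ht => ?_
      obtain ⟨ht1, s, hs, hadj⟩ := mem_bd.1 ht
      by_contra htS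
      apply ht1
      obtain ⟨s1, s2, s3⟩ := (memPu _ _ _).1 hs
      rw [memPu]
      rcases good (Sum.inl s) (Sum.inl t) hadj s3 with hg | hg
      · exact ⟨hg.2.1, hg.2.2, htS⟩
      · exact absurd s1 hg.1.2
    omega
  have hdis : (Pu F F').card + (Pu F' F).card ≤ Fintype.card V := by
    rw [← card_union_of_disjoint]
    · exact card_le_univ _
    · rw [Finset.disjoint_left]
      intro v hv hv'
      exact ((memPu _ _ _).1 hv).2.1 ((memPu _ _ _).1 hv').1
  have good' : ∀ u v, (Gr G h K).Adj u v → u ∉ S → ((u ∈ F' ∧ u ∉ F) ∧ (v ∈ F' ∧ v ∉ F)) ∨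
      ((u ∈ F ∧ u ∉ F') ∧ (v ∈ F ∧ v ∉ F')) := fun u v huv hu => (good u v huv hu).symm
  rcases le_total (Pu F F').card (Pu F' F).card with hle | hle
  · exact key F F' good (hcount F F' good hF) (by omega)
  · exact key F' F good' (hcount F' F good' hF') (by omega)

/-- A subset of the target which misses an element of the relation in every block is small. -/
theorem tgt_leaf6 (T : Set (Ut V m k → ZMod 2)) (hT : T ⊆ Tgt G h K S0)
    (hmiss : ∀ j, ∃ s ∈ S0, ∀ x ∈ T, blk j x ≠ s) :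
    (T.ncard : ℝ) ≤ (2 ^ (2 * k) / (2 ^ (2 * k) + 1)) ^ m * ((Tgt G h K S0).ncard : ℝ) := by
  classical
  choose s hs hsT using hmiss
  have hsw := switch (Tgt G h K S0) (Finset.univ : Finset (Fin m))
    (fun j => (Finset.univ : Finset (Fin k)).image fun i => (Sum.inr (j, i) : Ut V m k))
    (fun j => ((Finset.univ : Finset (Fin k)).image fun i => (Sum.inr (j, i) : Ut V m k)) ∪
      ((Finset.univ : Finset (Fin k)).image fun i => (Sum.inl (h (j, i)) : Ut V m k)))
    (fun j x => blk j x ≠ s j) (2 * k) ?_ ?_ ?_ ?_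
  · rw [Finset.card_univ, Fintype.card_fin] at hsw
    refine le_trans ?_ hsw
    have hsub : T ⊆ {x ∈ Tgt G h K S0 | ∀ i ∈ (Finset.univ : Finset (Fin m)), blk i x ≠ s i} :=
      fun x hx => ⟨hT hx, fun i _ => hsT i x hx⟩
    exact_mod_cast Set.ncard_le_ncard hsub (Set.toFinite _)
  · intro i _ j _ hij
    rw [Finset.disjoint_left]
    intro v hv hv'
    rw [Finset.mem_image] at hv
    obtain ⟨a, -, rfl⟩ := hv
    rw [Finset.mem_union, Finset.mem_image, Finset.mem_image] at hv'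
    rcases hv' with ⟨b, -, hb⟩ | ⟨b, -, hb⟩
    · exact hij (congrArg Prod.fst (Sum.inr_injective hb)).symm
    · exact absurd hb Sum.inl_ne_inr
  · intro j _ x y hxy hg
    have : blk j y = blk j x := by
      funext i
      exact hxy _ (Finset.mem_image.mpr ⟨i, Finset.mem_univ _, rfl⟩)
    rw [this]
    exact hg
  · intro j _
    refine (Finset.card_union_le _ _).trans ?_
    have h1 := Finset.card_image_le (s := (Finset.univ : Finset (Fin k)))
      (f := fun i => (Sum.inr (j, i) : Ut V m k))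
    have h2 := Finset.card_image_le (s := (Finset.univ : Finset (Fin k)))
      (f := fun i => (Sum.inl (h (j, i)) : Ut V m k))
    rw [Finset.card_univ, Fintype.card_fin] at h1 h2
    omega
  · intro j _ x hx
    obtain ⟨y, hy, h1, h2, h3, h4⟩ := open_block (h := h) hx j
    refine ⟨setB j (s j) y, h4 _ (hs j), ?_, ?_⟩
    · rintro (v | ⟨j', i⟩) hv
      · rw [setB_inl]
        refine h1 v ?_
        rintro ⟨i, rfl⟩
        exact hv (mem_union_right _ (mem_image.2 ⟨i, mem_univ _, rfl⟩))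
      · have hjj : j' ≠ j := by
          rintro rfl
          exact hv (mem_union_left _ (mem_image.2 ⟨i, mem_univ _, rfl⟩))
        rw [setB_ne hjj]
        exact h2 _
    · rw [not_not]
      funext i
      exact setB_self j (s j) y i

/-- The target is large. -/
theorem tgt_card6 (R : Finset V) (hR : ∀ a ∈ R, ∀ b ∈ R, ¬ G.Adj a b) (hRh : ∀ p, h p ∉ R)
    (hne : S0.Nonempty) : (2 : ℝ) ^ R.card ≤ ((Tgt G h K S0).ncard : ℝ) := by
  classical
  obtain ⟨s, hs⟩ := hne
  let F : (R → ZMod 2) → (Ut V m k → ZMod 2) := fun f u => match u with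
    | Sum.inl v => if hv : v ∈ R then f ⟨v, hv⟩ else 1
    | Sum.inr p => s p.2
  have hF : Function.Injective F := by
    intro f g hfg
    funext p
    have := congrFun hfg (Sum.inl p.1)
    simp only [F, dif_pos p.2] at this
    exact this
  have hone : ∀ f v, v ∉ R → F f (Sum.inl v) = 1 := by
    intro f v hv
    show (if hv : v ∈ R then f ⟨v, hv⟩ else 1) = 1
    rw [dif_neg hv]
  have hsub : Set.range F ⊆ Tgt G h K S0 := by
    rintro _ ⟨f, rfl⟩
    refine ⟨mem_VC_Gr.2 ⟨fun a b hab => ?_, fun p _ => Or.inl (hone f _ (hRh p))⟩, ?_⟩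
    · by_cases ha : a ∈ R
      · right
        exact hone f b fun hb => hR a ha b hb hab
      · left; exact hone f a ha
    · intro j
      exact hs
  have h1 : (Set.range F).ncard = 2 ^ R.card := by
    rw [← Set.image_univ, Set.ncard_image_of_injective _ hF, Set.ncard_univ,
      Nat.card_eq_fintype_card, Fintype.card_fun, ZMod.card, Fintype.card_coe]
  have h2 := Set.ncard_le_ncard hsub (Set.toFinite _)
  rw [h1] at h2
  exact_mod_cast h2

/-- The elements of the target are determined by their values on `XK`. -/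
theorem tgt_det6 (hK' : ∀ i ∉ K, ∀ s ∈ S0, ∀ s' ∈ S0, s i = s' i) {x y : Ut V m k → ZMod 2}
    (hx : x ∈ Tgt G h K S0) (hy : y ∈ Tgt G h K S0)
    (hxy : ∀ u ∈ XK (V := V) (m := m) K, x u = y u) : x = y := by
  funext u
  rcases u with v | ⟨j, i⟩
  · exact hxy _ (inl_mem_XK K v)
  · by_cases hi : i ∈ K
    · exact hxy _ ((inr_mem_XK K).2 hi)
    · exact hK' i hi _ (hx.2 j) _ (hy.2 j)

end

end Pool.Agent.RelNet
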