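import Pool.Agent.Helper91.RN.Lift6
import Pool.Agent.Helper91.RN.Str6b

/-!
The instance: or constraints made from a relation that is not affine, and a copy of a fixed
instance in every block.
-/

namespace Pool.Agent.RelNet

open Finset Pool.Agent.Dichotomy

set_option linter.unusedSectionVars false

/-- **The instance.**  After fixing two variables its solutions are the images of the elements of
the target under an injective affine map. -/
theorem exists_inst6 {Γ : Language} {k : ℕ} (I0 : List (Constraint k)) (hI0 : Over Γ I0)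
    {r : ℕ} {R : Set (Fin r → ZMod 2)} (hRΓ : (⟨r, R⟩ : Σ r : ℕ, Set (Fin r → ZMod 2)) ∈ Γ)
    (hR : ¬ IsAffine R) :
    ∃ β : ZMod 2, ∀ (V : Type) [Fintype V] [DecidableEq V] (m : ℕ) (G : SimpleGraph V)
      (E : Finset (V × V)) (_ : ∀ p ∈ E, G.Adj p.1 p.2)
      (_ : ∀ u v, G.Adj u v → (u, v) ∈ E ∨ (v, u) ∈ E) (col : V → Bool)
      (_ : ∀ p ∈ E, col p.1 = true ∧ col p.2 = false) (h : Fin m × Fin k → V)
      (_ : ∀ p, col (h p) = false) (K : Finset (Fin k)) (N : ℕ)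
      (_ : (Fintype.card V + m * k) + 2 + r * (E.card + m * k) ≤ N),
      ∃ (I : List (Constraint N)) (z0 z1 : Fin N) (emb : Ut V m k → Fin N)
        (τ : Ut V m k → ZMod 2) (l0 : Fin N → ZMod 2)
        (Λ : (Ut V m k → ZMod 2) →ₗ[ZMod 2] (Fin N → ZMod 2)),
        Over Γ I ∧ I.length ≤ E.card + m * k + N + m * I0.length ∧
        Function.Injective emb ∧ (∀ p, τ (Sum.inr p) = β) ∧
        (∀ y ∈ Sol I, y z0 = 0 → y z1 = 1 →
          ∃ x ∈ Tgt G h K {s | s + (fun _ => β) ∈ Sol I0}, y = l0 + Λ x) ∧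
        (∀ x ∈ Tgt G h K {s | s + (fun _ => β) ∈ Sol I0}, l0 + Λ x ∈ Sol I) ∧
        l0 z0 = 0 ∧ l0 z1 = 1 ∧ (∀ u, l0 (emb u) = τ u) ∧
        (∀ x, Λ x z0 = 0 ∧ Λ x z1 = 0 ∧ ∀ u, Λ x (emb u) = x u) := by
  classical
  obtain ⟨a1, a0, hlift⟩ := exists_lift6 hR
  refine ⟨a1, ?_⟩
  intro V _ _ m G E hE hEG col hcol h hcolh K N hN
  let E' : Finset (Ut V m k × Ut V m k) :=
    E.image (fun e => ((Sum.inl e.1, Sum.inl e.2) : Ut V m k × Ut V m k)) ∪
      ((Finset.univ : Finset (Fin m × Fin k)).filter fun p => p.2 ∈ K).image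
        (fun p => ((Sum.inr p, Sum.inl (h p)) : Ut V m k × Ut V m k))
  have memE' : ∀ u v, (u, v) ∈ E' ↔ (∃ e ∈ E, u = Sum.inl e.1 ∧ v = Sum.inl e.2) ∨
      ∃ p : Fin m × Fin k, p.2 ∈ K ∧ u = Sum.inr p ∧ v = Sum.inl (h p) := by
    intro u v
    simp only [E', mem_union, mem_image, mem_filter, mem_univ, true_and, Prod.mk.injEq]
    constructor
    · rintro (⟨e, he, h1, h2⟩ | ⟨p, hp, h1, h2⟩)
      · exact Or.inl ⟨e, he, h1.symm, h2.symm⟩
      · exact Or.inr ⟨p, hp, h1.symm, h2.symm⟩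
    · rintro (⟨e, he, h1, h2⟩ | ⟨p, hp, h1, h2⟩)
      · exact Or.inl ⟨e, he, h1.symm, h2.symm⟩
      · exact Or.inr ⟨p, hp, h1.symm, h2.symm⟩
  have hE'c : E'.card ≤ E.card + m * k := by
    refine (Finset.card_union_le _ _).trans (Nat.add_le_add Finset.card_image_le
      (Finset.card_image_le.trans ((Finset.card_filter_le _ _).trans ?_)))
    rw [Finset.card_univ, Fintype.card_prod, Fintype.card_fin, Fintype.card_fin]
  have hcard : Fintype.card (Ut V m k) = Fintype.card V + m * k := by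
    rw [Fintype.card_sum, Fintype.card_prod, Fintype.card_fin, Fintype.card_fin]
  obtain ⟨I1, z0, z1, emb, τ, l0, Λ, hlen, hrel, hinj, hτ, hI1, hI2, hl0, hl1, hle, hΛ⟩ :=
    hlift (Ut V m k) (Gr G h K) E' (by
      rintro ⟨u, v⟩ hp
      rcases (memE' u v).1 hp with ⟨e, he, rfl, rfl⟩ | ⟨p, hpK, rfl, rfl⟩
      · exact hE e he
      · exact ⟨rfl, hpK⟩) (by
      rintro (a | p) (b | q) hadj
      · rcases hEG a b hadj with h1 | h1
        · exact Or.inl ((memE' _ _).2 (Or.inl ⟨_, h1, rfl, rfl⟩))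
        · exact Or.inr ((memE' _ _).2 (Or.inl ⟨_, h1, rfl, rfl⟩))
      · obtain ⟨rfl, hq⟩ := (show a = h q ∧ q.2 ∈ K from hadj)
        exact Or.inr ((memE' _ _).2 (Or.inr ⟨q, hq, rfl, rfl⟩))
      · obtain ⟨rfl, hp⟩ := (show b = h p ∧ p.2 ∈ K from hadj)
        exact Or.inl ((memE' _ _).2 (Or.inr ⟨p, hp, rfl, rfl⟩))
      · exact absurd hadj id) (Sum.elim col fun _ => true) (by
      rintro ⟨u, v⟩ hp
      rcases (memE' u v).1 hp with ⟨e, he, rfl, rfl⟩ | ⟨p, hpK, rfl, rfl⟩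
      · exact hcol e he
      · exact ⟨rfl, hcolh p⟩) N (by
      rw [hcard]
      have := Nat.mul_le_mul_left r hE'c
      omega)
  set I2 : List (Constraint N) := (List.finRange m).flatMap fun l =>
    I0.map fun c => ⟨c.arity, c.rel, fun a => emb (Sum.inr (l, c.scope a))⟩ with hI2d
  have hτ2 : ∀ p, τ (Sum.inr p) = a1 := by
    intro p
    rw [hτ]
    simp
  have key : ∀ x : Ut V m k → ZMod 2, l0 + Λ x ∈ Sol I2 ↔
      ∀ l, blk l x ∈ {s | s + (fun _ => a1) ∈ Sol I0} := by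
    intro x
    have h2 : ∀ l, blk l x + (fun _ => a1) = fun a => (l0 + Λ x) (emb (Sum.inr (l, a))) := by
      intro l
      funext a
      rw [Pi.add_apply, Pi.add_apply, hle, hτ2, (hΛ x).2.2, add_comm]
      rfl
    constructor
    · intro hs l
      rw [Set.mem_ofPred_eq, h2 l]
      intro c hc
      exact hs ⟨c.arity, c.rel, fun a => emb (Sum.inr (l, c.scope a))⟩ (by
        rw [hI2d, List.mem_flatMap]
        exact ⟨l, List.mem_finRange l, List.mem_map.mpr ⟨c, hc, rfl⟩⟩)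
    · intro hs c hc
      rw [hI2d, List.mem_flatMap] at hc
      obtain ⟨l, -, hc⟩ := hc
      obtain ⟨c0, hc0, rfl⟩ := List.mem_map.mp hc
      have h3 := hs l
      rw [Set.mem_ofPred_eq, h2 l] at h3
      exact h3 c0 hc0
  refine ⟨I1 ++ I2, z0, z1, emb, τ, l0, Λ, ?_, ?_, hinj, hτ2, ?_, ?_, hl0, hl1, hle, hΛ⟩
  · intro c hc
    rcases List.mem_append.mp hc with hc | hc
    · obtain ⟨h1, h2⟩ := hrel c hc
      obtain ⟨ar, rel, sc⟩ := c
      simp only at h1 h2
      subst h1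
      rw [eq_of_heq h2]
      exact hRΓ
    · rw [hI2d, List.mem_flatMap] at hc
      obtain ⟨l, -, hc⟩ := hc
      obtain ⟨c0, hc0, rfl⟩ := List.mem_map.mp hc
      exact hI0 c0 hc0
  · rw [List.length_append, hI2d, List.length_flatMap]
    have : ((List.finRange m).map fun l => (I0.map fun c =>
        (⟨c.arity, c.rel, fun a => emb (Sum.inr (l, c.scope a))⟩ : Constraint N)).length).sum =
        m * I0.length := by
      simp
    rw [this]
    omega
  · intro y hy h0 h1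
    obtain ⟨x, hx, rfl⟩ := hI1 y (fun c hc => hy c (List.mem_append_left _ hc)) h0 h1
    exact ⟨x, ⟨hx, (key x).1 fun c hc => hy c (List.mem_append_right _ hc)⟩, rfl⟩
  · rintro x ⟨hx1, hx2⟩ c hc
    rcases List.mem_append.mp hc with hc | hc
    · exact hI2 x hx1 c hc
    · exact (key x).2 hx2 c hc

end Pool.Agent.RelNet
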