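import Pool.Agent.Helper91.Dich.Numeric4

/-!
From the main inequality to an exponential lower bound.
-/

namespace Pool.Agent.RelNet

open Filter Topology Pool.Agent.Dichotomy

theorem numeric6 (ρ ρ2 ρ1 : ℝ) (h0 : 0 < ρ) (h1 : ρ < 1) (h20 : 0 < ρ2) (h21 : ρ2 < 1)
    (h10 : 0 < ρ1) (h11 : ρ1 < 1)
    (L1 L2 L3 Lk : ℕ) (hL1 : 0 < L1) (hL2 : 0 < L2) (hL3 : 0 < L3) (hLk : 0 < Lk) :
    ∃ (k q0 : ℕ) (c : ℝ), 0 < c ∧ ∀ n m : ℕ, n ≤ L3 * (m + 1) → ∀ nV nR : ℕ, nV ≤ 2 * m →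
      11 * m ≤ 24 * nR → ∀ v s W : ℝ, (2 : ℝ) ^ nR ≤ v → 1 ≤ s → 0 ≤ W →
      (∀ δ : ℝ, 0 ≤ δ → (128 * W) ^ (2 * (k + 1)) *
        (2 ^ nV * (ρ ^ (m / L1)) ^ k + ρ ^ (m / L1)) ≤ δ ^ (4 * (k + 1)) →
        v ≤ (4 * s * ρ2 ^ (m / q0 / 7 / L2) + 4 * s * (2 ^ (m / q0) * (ρ1 ^ (m / Lk) + δ))) * v +
          2 * (4 * s) ^ 3 * ((2 : ℝ) ^ (m / q0)) ^ 3) →
      (2 : ℝ) ^ (c * n) ≤ 2 * (s + W) := by
  have hL1r : (0 : ℝ) < L1 := by exact_mod_cast hL1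
  obtain ⟨a, ha⟩ : ∃ a : ℝ, a = ρ ^ ((1 : ℝ) / L1) := ⟨_, rfl⟩
  have ha0 : 0 < a := by rw [ha]; exact Real.rpow_pos_of_pos h0 _
  have ha1 : a < 1 := by rw [ha]; exact Real.rpow_lt_one h0.le h1 (by positivity)
  obtain ⟨k, hk⟩ := exists_pow_lt_of_lt_one (show (0 : ℝ) < a / 4 by positivity) ha1
  obtain ⟨e, he⟩ : ∃ e : ℕ, e = 4 * (k + 1) := ⟨_, rfl⟩
  have hepos : 0 < e := by omega
  have her : (0 : ℝ) < e := by exact_mod_cast hepos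
  obtain ⟨b3, hb3⟩ : ∃ b3 : ℝ, b3 = a ^ ((1 : ℝ) / e) := ⟨_, rfl⟩
  have hb30 : 0 < b3 := by rw [hb3]; exact Real.rpow_pos_of_pos ha0 _
  have hb31 : b3 < 1 := by rw [hb3]; exact Real.rpow_lt_one ha0.le ha1 (by positivity)
  have hb3e : b3 ^ e = a := by
    rw [hb3, ← Real.rpow_natCast, ← Real.rpow_mul ha0.le, one_div, inv_mul_cancel₀ her.ne',
      Real.rpow_one]
  obtain ⟨q1, hq1⟩ := exists_pow_lt_of_lt_one (show (0 : ℝ) < 1 / 2 by norm_num) hb31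
  have hLkr : (0 : ℝ) < Lk := by exact_mod_cast hLk
  obtain ⟨b5, hb5⟩ : ∃ b5 : ℝ, b5 = ρ1 ^ ((1 : ℝ) / Lk) := ⟨_, rfl⟩
  have hb50 : 0 < b5 := by rw [hb5]; exact Real.rpow_pos_of_pos h10 _
  have hb51 : b5 < 1 := by rw [hb5]; exact Real.rpow_lt_one h10.le h11 (by positivity)
  obtain ⟨q2, hq2⟩ := exists_pow_lt_of_lt_one (show (0 : ℝ) < 1 / 2 by norm_num) hb51
  obtain ⟨q0, hq0⟩ : ∃ q0, q0 = q1 + q2 + 12 := ⟨_, rfl⟩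
  have hq0pos : 0 < q0 := by omega
  have hq0r : (0 : ℝ) < q0 := by exact_mod_cast hq0pos
  obtain ⟨ρ3, hρ3⟩ : ∃ ρ3 : ℝ, ρ3 = 2 * b3 ^ q0 := ⟨_, rfl⟩
  have hρ30 : 0 < ρ3 := by rw [hρ3]; positivity
  have hρ31 : ρ3 < 1 := by
    have : b3 ^ q0 ≤ b3 ^ q1 := pow_le_pow_of_le_one hb30.le hb31.le (by omega)
    rw [hρ3]; linarith
  obtain ⟨ρ5, hρ5⟩ : ∃ ρ5 : ℝ, ρ5 = 2 * b5 ^ q0 := ⟨_, rfl⟩
  have hρ50 : 0 < ρ5 := by rw [hρ5]; positivity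
  have hρ51 : ρ5 < 1 := by
    have : b5 ^ q0 ≤ b5 ^ q2 := pow_le_pow_of_le_one hb50.le hb51.le (by omega)
    rw [hρ5]; linarith
  obtain ⟨C1, hC1⟩ : ∃ C1 : ℝ, C1 = ρ⁻¹ ^ k + ρ⁻¹ := ⟨_, rfl⟩
  have hρinv : 1 ≤ ρ⁻¹ := (one_le_inv₀ h0).2 h1.le
  have hC11 : 1 ≤ C1 := by
    rw [hC1]
    have : 0 < ρ⁻¹ ^ k := by positivity
    linarith
  have hC10 : 0 < C1 := by linarith
  -- the three bases
  obtain ⟨bβ, hbβ⟩ : ∃ x : ℝ, x = ρ2 ^ ((1 : ℝ) / (q0 * 7 * L2 : ℕ)) := ⟨_, rfl⟩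
  obtain ⟨b4, hb4⟩ : ∃ x : ℝ, x = ρ3 ^ ((1 : ℝ) / q0) := ⟨_, rfl⟩
  obtain ⟨b6, hb6⟩ : ∃ x : ℝ, x = (1 / 2 : ℝ) ^ ((1 : ℝ) / (8 : ℕ)) := ⟨_, rfl⟩
  obtain ⟨b7, hb7⟩ : ∃ x : ℝ, x = ρ5 ^ ((1 : ℝ) / q0) := ⟨_, rfl⟩
  have hb70 : 0 < b7 := by rw [hb7]; exact Real.rpow_pos_of_pos hρ50 _
  have hb71 : b7 < 1 := by rw [hb7]; exact Real.rpow_lt_one hρ50.le hρ51 (by positivity)
  have hLL : 0 < q0 * 7 * L2 := by positivity
  have hLLr : (0 : ℝ) < ((q0 * 7 * L2 : ℕ) : ℝ) := by exact_mod_cast hLL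
  have hbβ0 : 0 < bβ := by rw [hbβ]; exact Real.rpow_pos_of_pos h20 _
  have hbβ1 : bβ < 1 := by rw [hbβ]; exact Real.rpow_lt_one h20.le h21 (by positivity)
  have hb40 : 0 < b4 := by rw [hb4]; exact Real.rpow_pos_of_pos hρ30 _
  have hb41 : b4 < 1 := by rw [hb4]; exact Real.rpow_lt_one hρ30.le hρ31 (by positivity)
  have hb60 : 0 < b6 := by rw [hb6]; exact Real.rpow_pos_of_pos (by norm_num) _
  have hb61 : b6 < 1 := by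
    rw [hb6]; exact Real.rpow_lt_one (by norm_num) (by norm_num) (by norm_num)
  obtain ⟨b, hb⟩ : ∃ b : ℝ, b = max (max bβ b7) (max b4 b6) := ⟨_, rfl⟩
  have hbb : bβ ≤ b := by rw [hb]; exact (le_max_left _ _).trans (le_max_left _ _)
  have hb7b : b7 ≤ b := by rw [hb]; exact (le_max_right _ _).trans (le_max_left _ _)
  have hb4b : b4 ≤ b := by rw [hb]; exact (le_max_left _ _).trans (le_max_right _ _)
  have hb6b : b6 ≤ b := by rw [hb]; exact (le_max_right _ _).trans (le_max_right _ _)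
  have hb0 : 0 < b := lt_of_lt_of_le hbβ0 hbb
  have hb1 : b < 1 := by rw [hb]; exact max_lt (max_lt hbβ1 hb71) (max_lt hb41 hb61)
  obtain ⟨Cst, hCst⟩ : ∃ Cst : ℝ, Cst = 4 * ρ2⁻¹ + 4 * (ρ1⁻¹ * ρ5⁻¹) + 512 * (C1 * ρ3⁻¹) + 256 :=
    ⟨_, rfl⟩
  have hCst0 : 0 < Cst := by rw [hCst]; positivity
  obtain ⟨c, hc, hnum⟩ := numeric4_aux b Cst hb0 hb1 hCst0 L3 hL3
  refine ⟨k, q0, c, hc, ?_⟩
  intro n m hn nV nR hnV hnR v s W hv hs hW h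
  obtain ⟨y, hy⟩ : ∃ y : ℝ, y = s + W := ⟨_, rfl⟩
  have hy1 : 1 ≤ y := by linarith
  have hsy : s ≤ y := by linarith
  have hWy : W ≤ y := by linarith
  rw [← hy]
  refine hnum n m hn y hy1 ?_
  rw [← he] at h
  obtain ⟨z, hz⟩ : ∃ z : ℝ, z = C1 * b3 ^ m := ⟨_, rfl⟩
  have hz0 : 0 < z := by rw [hz]; positivity
  have e2 : ρ ^ (m / L1) ≤ ρ⁻¹ * a ^ m := by rw [ha]; exact pow_div_le h0 h1 hL1 m
  have e3 : 2 ^ nV * (ρ ^ (m / L1)) ^ k + ρ ^ (m / L1) ≤ C1 * a ^ m := by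
    have s0 : (2 : ℝ) ^ nV ≤ 4 ^ m := by
      calc (2 : ℝ) ^ nV ≤ 2 ^ (2 * m) := pow_le_pow_right₀ (by norm_num) hnV
        _ = 4 ^ m := by rw [pow_mul]; norm_num
    have s1 : (ρ ^ (m / L1)) ^ k ≤ ρ⁻¹ ^ k * (a ^ k) ^ m := by
      calc (ρ ^ (m / L1)) ^ k ≤ (ρ⁻¹ * a ^ m) ^ k := pow_le_pow_left₀ (by positivity) e2 k
        _ = ρ⁻¹ ^ k * (a ^ k) ^ m := by rw [mul_pow, ← pow_mul, ← pow_mul, mul_comm m k]
    have s2 : (4 : ℝ) ^ m * (a ^ k) ^ m ≤ a ^ m := by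
      rw [← mul_pow]
      exact pow_le_pow_left₀ (by positivity) (by linarith) m
    calc 2 ^ nV * (ρ ^ (m / L1)) ^ k + ρ ^ (m / L1)
        ≤ 4 ^ m * (ρ⁻¹ ^ k * (a ^ k) ^ m) + ρ⁻¹ * a ^ m :=
          add_le_add (mul_le_mul s0 s1 (by positivity) (by positivity)) e2
      _ = ρ⁻¹ ^ k * (4 ^ m * (a ^ k) ^ m) + ρ⁻¹ * a ^ m := by ring
      _ ≤ ρ⁻¹ ^ k * a ^ m + ρ⁻¹ * a ^ m := by
          have := mul_le_mul_of_nonneg_left s2 (show (0 : ℝ) ≤ ρ⁻¹ ^ k by positivity)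
          linarith
      _ = C1 * a ^ m := by rw [hC1]; ring
  have e4 : C1 * a ^ m ≤ z ^ e := by
    rw [hz, mul_pow, ← pow_mul, mul_comm m e, pow_mul, hb3e]
    refine mul_le_mul_of_nonneg_right ?_ (by positivity)
    exact le_self_pow₀ hC11 hepos.ne'
  have e5 : (128 * W) ^ (2 * (k + 1)) * (2 ^ nV * (ρ ^ (m / L1)) ^ k + ρ ^ (m / L1)) ≤
      (128 * y * z) ^ e := by
    rw [mul_pow (128 * y) z e]
    refine mul_le_mul ?_ (e3.trans e4) (by positivity) (by positivity)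
    calc (128 * W) ^ (2 * (k + 1)) ≤ (128 * y) ^ (2 * (k + 1)) :=
          pow_le_pow_left₀ (by positivity) (by linarith) _
      _ ≤ (128 * y) ^ e := pow_le_pow_right₀ (by linarith) (by omega)
  have hmain := h (128 * y * z) (by positivity) e5
  -- the three parts
  have hvpos : 0 < v := lt_of_lt_of_le (by positivity) hv
  have p1 : ρ2 ^ (m / q0 / 7 / L2) ≤ ρ2⁻¹ * b ^ m := by
    have hdd : m / q0 / 7 / L2 = m / (q0 * 7 * L2) := by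
      rw [Nat.div_div_eq_div_mul, Nat.div_div_eq_div_mul, Nat.mul_assoc]
    rw [hdd]
    have h3 := pow_div_le h20 h21 hLL m
    rw [← hbβ] at h3
    refine h3.trans ?_
    exact mul_le_mul_of_nonneg_left (pow_le_pow_left₀ hbβ0.le hbb m) (by positivity)
  have p2 : 2 ^ (m / q0) * z ≤ C1 * ρ3⁻¹ * b ^ m := by
    have h4 : b3 ^ m ≤ (b3 ^ q0) ^ (m / q0) := by
      rw [← pow_mul]
      exact pow_le_pow_of_le_one hb30.le hb31.le (Nat.mul_div_le m q0)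
    have h5 : (2 : ℝ) ^ (m / q0) * b3 ^ m ≤ ρ3 ^ (m / q0) := by
      calc (2 : ℝ) ^ (m / q0) * b3 ^ m ≤ 2 ^ (m / q0) * (b3 ^ q0) ^ (m / q0) :=
            mul_le_mul_of_nonneg_left h4 (by positivity)
        _ = ρ3 ^ (m / q0) := by rw [← mul_pow, hρ3]
    have h6 : ρ3 ^ (m / q0) ≤ ρ3⁻¹ * b4 ^ m := by rw [hb4]; exact pow_div_le hρ30 hρ31 hq0pos m
    calc 2 ^ (m / q0) * z = C1 * (2 ^ (m / q0) * b3 ^ m) := by rw [hz]; ring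
      _ ≤ C1 * (ρ3⁻¹ * b4 ^ m) := mul_le_mul_of_nonneg_left (h5.trans h6) hC10.le
      _ ≤ C1 * (ρ3⁻¹ * b ^ m) := by
          refine mul_le_mul_of_nonneg_left ?_ hC10.le
          exact mul_le_mul_of_nonneg_left (pow_le_pow_left₀ hb40.le hb4b m) (by positivity)
      _ = _ := by ring
  have p2' : 2 ^ (m / q0) * ρ1 ^ (m / Lk) ≤ ρ1⁻¹ * ρ5⁻¹ * b ^ m := by
    have h3 : ρ1 ^ (m / Lk) ≤ ρ1⁻¹ * b5 ^ m := by rw [hb5]; exact pow_div_le h10 h11 hLk m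
    have h4 : b5 ^ m ≤ (b5 ^ q0) ^ (m / q0) := by
      rw [← pow_mul]
      exact pow_le_pow_of_le_one hb50.le hb51.le (Nat.mul_div_le m q0)
    have h5 : (2 : ℝ) ^ (m / q0) * b5 ^ m ≤ ρ5 ^ (m / q0) := by
      calc (2 : ℝ) ^ (m / q0) * b5 ^ m ≤ 2 ^ (m / q0) * (b5 ^ q0) ^ (m / q0) :=
            mul_le_mul_of_nonneg_left h4 (by positivity)
        _ = ρ5 ^ (m / q0) := by rw [← mul_pow, hρ5]
    have h6 : ρ5 ^ (m / q0) ≤ ρ5⁻¹ * b7 ^ m := by rw [hb7]; exact pow_div_le hρ50 hρ51 hq0pos m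
    calc 2 ^ (m / q0) * ρ1 ^ (m / Lk) ≤ 2 ^ (m / q0) * (ρ1⁻¹ * b5 ^ m) :=
          mul_le_mul_of_nonneg_left h3 (by positivity)
      _ = ρ1⁻¹ * (2 ^ (m / q0) * b5 ^ m) := by ring
      _ ≤ ρ1⁻¹ * (ρ5⁻¹ * b7 ^ m) := mul_le_mul_of_nonneg_left (h5.trans h6) (by positivity)
      _ ≤ ρ1⁻¹ * (ρ5⁻¹ * b ^ m) := by
          refine mul_le_mul_of_nonneg_left ?_ (by positivity)
          exact mul_le_mul_of_nonneg_left (pow_le_pow_left₀ hb70.le hb7b m) (by positivity)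
      _ = _ := by ring
  have p3 : ((2 : ℝ) ^ (m / q0)) ^ 3 ≤ 2 * b ^ m * v := by
    have h7 : m / q0 * 3 + m / 8 ≤ nR := by
      have h8 : m / q0 ≤ m / 12 := Nat.div_le_div_left (by omega) (by norm_num)
      omega
    have h9 : ((2 : ℝ) ^ (m / q0)) ^ 3 = (1 / 2) ^ (m / 8) * 2 ^ (m / q0 * 3 + m / 8) := by
      rw [pow_add, ← pow_mul, ← mul_assoc, mul_comm ((1 / 2 : ℝ) ^ (m / 8)), mul_assoc, ← mul_pow]
      norm_num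
    have h10 : (1 / 2 : ℝ) ^ (m / 8) ≤ (1 / 2 : ℝ)⁻¹ * b6 ^ m := by
      rw [hb6]; exact pow_div_le (by norm_num) (by norm_num) (by norm_num) m
    rw [h9]
    refine mul_le_mul ?_ ((pow_le_pow_right₀ (by norm_num) h7).trans hv) (by positivity)
      (by positivity)
    calc (1 / 2 : ℝ) ^ (m / 8) ≤ (1 / 2 : ℝ)⁻¹ * b6 ^ m := h10
      _ = 2 * b6 ^ m := by norm_num
      _ ≤ 2 * b ^ m := mul_le_mul_of_nonneg_left (pow_le_pow_left₀ hb60.le hb6b m) (by norm_num)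
  have hbm : 0 < b ^ m := by positivity
  have hs3 : s ^ 3 ≤ y ^ 3 := pow_le_pow_left₀ (by linarith) hsy 3
  have hy13 : y ≤ y ^ 3 := le_self_pow₀ hy1 (by norm_num)
  have hy23 : y ^ 2 ≤ y ^ 3 := pow_le_pow_right₀ hy1 (by norm_num)
  have q1' : 4 * s * ρ2 ^ (m / q0 / 7 / L2) ≤ y ^ 3 * (4 * ρ2⁻¹ * b ^ m) := by
    calc 4 * s * ρ2 ^ (m / q0 / 7 / L2) ≤ 4 * y ^ 3 * (ρ2⁻¹ * b ^ m) := by
          refine mul_le_mul ?_ p1 (by positivity) (by positivity)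
          linarith
      _ = _ := by ring
  have q2' : 4 * s * (2 ^ (m / q0) * (128 * y * z)) ≤ y ^ 3 * (512 * (C1 * ρ3⁻¹) * b ^ m) := by
    have h11 : s * y ≤ y ^ 3 := by
      calc s * y ≤ y * y := mul_le_mul_of_nonneg_right hsy (by linarith)
        _ = y ^ 2 := by ring
        _ ≤ _ := hy23
    calc 4 * s * (2 ^ (m / q0) * (128 * y * z)) = 512 * ((s * y) * (2 ^ (m / q0) * z)) := by ring
      _ ≤ 512 * (y ^ 3 * (C1 * ρ3⁻¹ * b ^ m)) := by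
          refine mul_le_mul_of_nonneg_left ?_ (by norm_num)
          exact mul_le_mul h11 p2 (by positivity) (by positivity)
      _ = _ := by ring
  have q4' : 4 * s * (2 ^ (m / q0) * ρ1 ^ (m / Lk)) ≤ y ^ 3 * (4 * (ρ1⁻¹ * ρ5⁻¹) * b ^ m) := by
    calc 4 * s * (2 ^ (m / q0) * ρ1 ^ (m / Lk)) ≤ 4 * y ^ 3 * (ρ1⁻¹ * ρ5⁻¹ * b ^ m) := by
          refine mul_le_mul ?_ p2' (by positivity) (by positivity)
          linarith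
      _ = _ := by ring
  have q3' : 2 * (4 * s) ^ 3 * ((2 : ℝ) ^ (m / q0)) ^ 3 ≤ y ^ 3 * (256 * b ^ m) * v := by
    calc 2 * (4 * s) ^ 3 * ((2 : ℝ) ^ (m / q0)) ^ 3
        = 128 * (s ^ 3 * ((2 : ℝ) ^ (m / q0)) ^ 3) := by ring
      _ ≤ 128 * (y ^ 3 * (2 * b ^ m * v)) := by
          refine mul_le_mul_of_nonneg_left ?_ (by norm_num)
          exact mul_le_mul hs3 p3 (by positivity) (by positivity)
      _ = _ := by ring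
  have hfin : v ≤ (y ^ 3 * (Cst * b ^ m)) * v := by
    refine hmain.trans ?_
    have h12 := mul_le_mul_of_nonneg_right (add_le_add q1' (add_le_add q4' q2')) hvpos.le
    have h14 : 4 * s * (2 ^ (m / q0) * (ρ1 ^ (m / Lk) + 128 * y * z)) =
        4 * s * (2 ^ (m / q0) * ρ1 ^ (m / Lk)) + 4 * s * (2 ^ (m / q0) * (128 * y * z)) := by ring
    rw [h14]
    have h13 : (y ^ 3 * (4 * ρ2⁻¹ * b ^ m) + (y ^ 3 * (4 * (ρ1⁻¹ * ρ5⁻¹) * b ^ m) +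
        y ^ 3 * (512 * (C1 * ρ3⁻¹) * b ^ m))) * v +
        y ^ 3 * (256 * b ^ m) * v = (y ^ 3 * (Cst * b ^ m)) * v := by rw [hCst]; ring
    linarith
  exact (le_mul_iff_one_le_left hvpos).1 hfin

end Pool.Agent.RelNet
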