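import Pool.Agent.Helper91.RN.Main6
import Pool.Agent.Helper91.RN.Inst6
import Pool.Agent.Helper91.RN.Num6

/-!
The relative dichotomy for programs with tensor network leaves and leaves in a class.
-/

namespace Pool.Agent.RelNet

open Finset Module Pool.Agent.Dichotomy

set_option linter.unusedSectionVars false

/-- **Lower bound.**  If some instance over `Γ` has a solution set outside of the class, then some
instances over `Γ` of linear size need programs of exponential size. -/
theorem hard6 {L : RelD.RelClass} (hL : RelD.Closed L) {Γ : Language} {k : ℕ}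
    (I0 : List (Constraint k)) (hI0 : Over Γ I0) (hS1 : Sol I0 ∉ L k) :
    ∃ c : ℝ, 0 < c ∧ ∃ C : ℕ, ∀ n : ℕ, ∃ I : List (Constraint n),
      Over Γ I ∧ I.length ≤ C * n ∧
      ∀ (g : Type) (_ : Fintype g) (rk : g → ℕ) (W : ℕ) (M : g → Set (Fin n → ZMod 2)),
        IsProgL (fun S => NetLeaf W S ∨ S ∈ L n) rk M → (∃ v, M v = Sol I) →
          (2 : ℝ) ^ (c * n) ≤ 2 * (Fintype.card g + W) := by
  classical
  have hnaff : ¬ IsAffine (Sol I0) := fun h => hS1 (hL.affine k _ h)
  -- a relation that is not affine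
  obtain ⟨⟨r, R, sc⟩, hc0, hRna⟩ : ∃ c ∈ I0, ¬ IsAffine c.rel := by
    by_contra hcon
    push Not at hcon
    apply hnaff
    intro x hx y hy z hz c hc
    exact hcon c hc _ (hx c hc) _ (hy c hc) _ (hz c hc)
  have hRΓ : (⟨r, R⟩ : Σ r : ℕ, Set (Fin r → ZMod 2)) ∈ Γ := hI0 _ hc0
  have hk : 1 ≤ k := by
    rcases Nat.eq_zero_or_pos k with h | h
    · subst h
      exfalso
      apply hnaff
      intro x hx y _ z _
      have : x + y + z = x := Subsingleton.elim _ _
      rw [this]; exact hx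
    · exact h
  obtain ⟨β, hinst⟩ := exists_inst6 I0 hI0 hRΓ hRna
  obtain ⟨S0, hS0⟩ : ∃ S0 : Set (Fin k → ZMod 2), S0 = {s | s + (fun _ => β) ∈ Sol I0} :=
    ⟨_, rfl⟩
  rw [← hS0] at hinst
  obtain ⟨K, hKd⟩ : ∃ K : Finset (Fin k), ∀ i, i ∈ K ↔ ∃ s ∈ S0, ∃ s' ∈ S0, s i ≠ s' i :=
    ⟨Finset.univ.filter fun i => ∃ s ∈ S0, ∃ s' ∈ S0, s i ≠ s' i, fun i => by simp⟩
  have hββ : ∀ s : Fin k → ZMod 2, s + (fun _ => β) + (fun _ => β) = s := by
    intro s; rw [add_assoc, pi_add_self, add_zero]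
  have hne : S0.Nonempty := by
    by_contra h
    rw [Set.not_nonempty_iff_eq_empty] at h
    apply hnaff
    intro x hx
    exfalso
    have : x + (fun _ => β) ∈ S0 := by
      rw [hS0]
      show x + (fun _ => β) + (fun _ => β) ∈ Sol I0
      rw [hββ]; exact hx
    rw [h] at this
    exact this
  have hK : ∀ i ∈ K, ∀ b : ZMod 2, ∃ s ∈ S0, s i = b := by
    intro i hi b
    obtain ⟨s, hs, s', hs', hne'⟩ := (hKd i).1 hi
    have h3 : ∀ a a' b : ZMod 2, a ≠ a' → a = b ∨ a' = b := by decide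
    rcases h3 _ _ b hne' with h | h
    · exact ⟨s, hs, h⟩
    · exact ⟨s', hs', h⟩
  have hK' : ∀ i ∉ K, ∀ s ∈ S0, ∀ s' ∈ S0, s i = s' i := by
    intro i hi s hs s' hs'
    by_contra hcon
    exact hi ((hKd i).2 ⟨s, hs, s', hs', hcon⟩)
  -- the constants
  obtain ⟨DD, hDD⟩ : ∃ DD : ℕ, DD = 12768 := ⟨_, rfl⟩
  obtain ⟨ν, hν⟩ : ∃ ν : ℕ, ν = 96 * DD + 2 * k + 1 := ⟨_, rfl⟩
  have hν0 : 0 < ν := by omega
  have hρ0 : ∀ j : ℕ, (0 : ℝ) < 2 ^ j / (2 ^ j + 1) := fun j => by positivity
  have hρ1 : ∀ j : ℕ, (2 : ℝ) ^ j / (2 ^ j + 1) < 1 := fun j => by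
    rw [div_lt_one (by positivity)]; linarith
  obtain ⟨B, hB⟩ : ∃ B, B = 3 + r * (DD + 1) := ⟨_, rfl⟩
  have hBpos : 0 < B := by omega
  obtain ⟨k0, q0, c, hc, hnum⟩ := numeric6 (2 ^ ν / (2 ^ ν + 1)) (2 ^ (2 * ν) / (2 ^ (2 * ν) + 1))
    (2 ^ (2 * k) / (2 ^ (2 * k) + 1)) (hρ0 _) (hρ1 _) (hρ0 _) (hρ1 _) (hρ0 _) (hρ1 _)
    (140 * ν) (2 * ν ^ 2) (100 * B) (2 * k) (by positivity) (by positivity) (by positivity)
    (by omega)
  refine ⟨c, hc, DD + 2 + I0.length, ?_⟩
  intro n
  obtain ⟨m, hm⟩ : ∃ m, m = (n - 2) / B := ⟨_, rfl⟩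
  rcases Nat.lt_or_ge m 70 with hm70 | hm70
  · refine ⟨[], ?_, by simp, ?_⟩
    · intro c hc; simp at hc
    intro g _ rk W M hM ⟨v, hv⟩
    have hs1 : (1 : ℝ) ≤ Fintype.card g := by exact_mod_cast Fintype.card_pos_iff.2 ⟨v⟩
    have hW0 : (0 : ℝ) ≤ W := Nat.cast_nonneg _
    have hn : n ≤ 100 * B * (0 + 1) := by
      have h1 : n - 2 < B * (m + 1) := by rw [hm]; exact Nat.lt_mul_div_succ _ hBpos
      have h2 : B * (m + 1) ≤ B * 70 := Nat.mul_le_mul_left _ (by omega)
      have h3 : 2 ≤ B := by omega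
      omega
    refine hnum n 0 hn 0 0 (by omega) (by omega) 1 _ _ (by norm_num) hs1 hW0 ?_
    intro δ hδ0 hδ
    simp only [Nat.zero_div, pow_zero, mul_one, one_mul, one_pow]
    have : (0 : ℝ) ≤ (4 * (Fintype.card g : ℝ)) ^ 3 := by positivity
    nlinarith [mul_nonneg (by linarith : (0:ℝ) ≤ Fintype.card g) hδ0]
  · obtain ⟨V, _, _, G, E, col, hE, hEG, hcol, hEc, hdeg, hExp, hV2, hV1, hVr⟩ :=
      exists_expander hDD m (by omega)
    obtain ⟨mb, hmb⟩ : ∃ mb, mb = m / (2 * k) := ⟨_, rfl⟩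
    have hmbk : 2 * (mb * k) ≤ m := by
      have h1 : m / (2 * k) * (2 * k) ≤ m := Nat.div_mul_le_self _ _
      rw [← hmb] at h1
      calc 2 * (mb * k) = mb * (2 * k) := by ring
        _ ≤ m := h1
    have hcardF : Fintype.card {v // col v = false} =
        (Finset.univ.filter fun v => col v = false).card := Fintype.card_subtype _
    obtain ⟨⟨h0, hh0⟩⟩ : Nonempty ((Fin mb × Fin k) ↪ {v // col v = false}) := by
      apply Function.Embedding.nonempty_of_card_le
      rw [Fintype.card_prod, Fintype.card_fin, Fintype.card_fin, hcardF]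
      omega
    obtain ⟨h, hhd⟩ : ∃ h : Fin mb × Fin k → V, ∀ p, h p = (h0 p).1 := ⟨_, fun _ => rfl⟩
    have hh : Function.Injective h := by
      intro p q e
      rw [hhd, hhd] at e
      exact hh0 (Subtype.ext e)
    have hcolh : ∀ p, col (h p) = false := by intro p; rw [hhd]; exact (h0 p).2
    have hmB : m * B + 2 ≤ n := by
      have h1 : m * B ≤ n - 2 := by rw [hm]; exact Nat.div_mul_le_self _ _
      have h2 : 0 < m * B := by positivity
      omega
    have hmn : m ≤ n := by
      have h1 : m ≤ m * B := Nat.le_mul_of_pos_right _ hBpos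
      omega
    obtain ⟨I, z0, z1, emb, τ, l0, Λ, hover, hlen, hemb, hτ, hI1, hI2, hl0, hl1, hle, hΛ⟩ :=
      hinst V mb G E hE hEG col hcol h hcolh K n (by
        have h1 : r * (E.card + mb * k) ≤ r * (DD * m + m) := by gcongr; omega
        calc (Fintype.card V + mb * k) + 2 + r * (E.card + mb * k)
            ≤ (2 * m + m) + 2 + r * (DD * m + m) := by omega
          _ = m * B + 2 := by rw [hB]; ring
          _ ≤ n := hmB)
    refine ⟨I, hover, ?_, ?_⟩
    · refine hlen.trans ?_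
      have h2 : E.card ≤ DD * n := hEc.trans (Nat.mul_le_mul_left _ hmn)
      have h3 : mb ≤ mb * k := Nat.le_mul_of_pos_right _ (by omega)
      have h4 : mb * I0.length ≤ n * I0.length := Nat.mul_le_mul_right _ (by omega)
      calc E.card + mb * k + n + mb * I0.length ≤ DD * n + n + n + n * I0.length := by omega
        _ = _ := by ring
    · intro g _ rk W M hM ⟨v, hv⟩
      have hs1 : (1 : ℝ) ≤ Fintype.card g := by exact_mod_cast Fintype.card_pos_iff.2 ⟨v⟩
      have hW0 : (0 : ℝ) ≤ W := Nat.cast_nonneg _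
      have hn : n ≤ 100 * B * (m + 1) := by
        have h1 : n - 2 < B * (m + 1) := by rw [hm]; exact Nat.lt_mul_div_succ _ hBpos
        have h3 : 2 ≤ B := by omega
        have h4 : 100 * B * (m + 1) = 100 * (B * (m + 1)) := by ring
        have h5 : 2 ≤ B * (m + 1) := by nlinarith
        omega
      -- many independent hubs without variables
      obtain ⟨Rf, hRf⟩ : ∃ Rf : Finset V, Rf = (Finset.univ.filter fun v => col v = false) \
          Finset.univ.image h := ⟨_, rfl⟩
      have hRfc : 11 * m ≤ 24 * Rf.card := by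
        have h1 := Finset.le_card_sdiff (Finset.univ.image h)
          (Finset.univ.filter fun v => col v = false)
        have h2 : (Finset.univ.image h).card ≤ mb * k := by
          refine Finset.card_image_le.trans ?_
          rw [Finset.card_univ, Fintype.card_prod, Fintype.card_fin, Fintype.card_fin]
        rw [← hRf] at h1
        omega
      have hcard := tgt_card6 (G := G) (h := h) (K := K) (S0 := S0) Rf (by
        intro a ha b hb hadj
        rw [hRf] at ha hb
        have ha' := (mem_filter.1 (mem_sdiff.1 ha).1).2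
        have hb' := (mem_filter.1 (mem_sdiff.1 hb).1).2
        rcases hEG a b hadj with h1 | h1
        · have := (hcol _ h1).1
          simp only at this
          rw [ha'] at this
          exact absurd this (by decide)
        · have := (hcol _ h1).1
          simp only at this
          rw [hb'] at this
          exact absurd this (by decide)) (by
        intro p hp
        rw [hRf] at hp
        exact (mem_sdiff.1 hp).2 (mem_image.2 ⟨p, mem_univ _, rfl⟩)) hne
      refine hnum n m hn (4 * (m / 70)) Rf.card (by omega) hRfc _ _ _ hcard hs1 hW0 ?_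
      intro δ hδ0 hδ
      have hb := main6 (D := 96 * DD) hL hS1 hS0 hh hK hK' hne hdeg hExp hemb hτ hI1 hI2 hl0 hl1
        hle hΛ (m / q0) (m / 70) k0 (m / (140 * ν)) (by omega) (by omega) (by
          rw [← hν, ← Nat.div_div_eq_div_mul]
          have h1 : m / 140 / ν * ν ≤ m / 140 := Nat.div_mul_le_self _ _
          omega) hM hv δ hδ0 (by
          rw [← hν]
          have h16 : (16 : ℝ) ^ (m / 70) = 2 ^ (4 * (m / 70)) := by
            rw [pow_mul]; norm_num
          rw [h16]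
          exact hδ)
      rw [← hν] at hb
      rw [← hmb]
      exact hb

/-- **The dichotomy.** -/
theorem dichotomy6 (L : RelD.RelClass) (hL : RelD.Closed L) (Γ : Language) :
    (∀ (n : ℕ) (I : List (Constraint n)), Over Γ I → Sol I ∈ L n) ∨
    ∃ c : ℝ, 0 < c ∧ ∃ C : ℕ, ∀ n : ℕ, ∃ I : List (Constraint n),
      Over Γ I ∧ I.length ≤ C * n ∧
      ∀ (g : Type) (_ : Fintype g) (rk : g → ℕ) (W : ℕ) (M : g → Set (Fin n → ZMod 2)),
        IsProgL (fun S => NetLeaf W S ∨ S ∈ L n) rk M → (∃ v, M v = Sol I) →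
          (2 : ℝ) ^ (c * n) ≤ 2 * (Fintype.card g + W) := by
  by_cases h : ∀ (n : ℕ) (I : List (Constraint n)), Over Γ I → Sol I ∈ L n
  · exact Or.inl h
  · right
    push Not at h
    obtain ⟨k, I0, hI0, hS1⟩ := h
    exact hard6 hL I0 hI0 hS1

end Pool.Agent.RelNet
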