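import Pool.Agent.Helper91.RN.Par6
import Pool.Agent.Helper91.RN.LeafB6
import Pool.Agent.Helper91.Dich.Path3
import Pool.Agent.RelD.Sum

/-!
The main inequality.
-/

namespace Pool.Agent.RelNet

open Finset Module Pool.Agent.Dichotomy Pool.Agent.Helper34.XTW

set_option linter.unusedSectionVars false

section

variable {N m k : ℕ} {V : Type} [Fintype V] [DecidableEq V] {G : SimpleGraph V}
  {h : Fin m × Fin k → V} {K : Finset (Fin k)} {S0 : Set (Fin k → ZMod 2)}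
  {emb : Ut V m k → Fin N} {τ : Ut V m k → ZMod 2} {l0 : Fin N → ZMod 2}
  {Λ : (Ut V m k → ZMod 2) →ₗ[ZMod 2] (Fin N → ZMod 2)}

theorem Λinj (hΛ : ∀ x u, Λ x (emb u) = x u) : Function.Injective Λ := by
  intro x y hxy
  funext u
  rw [← hΛ x u, ← hΛ y u, hxy]

theorem A_ncard (hΛ : ∀ x u, Λ x (emb u) = x u) {A : Set (Fin N → ZMod 2)}
    (hA : ∀ y, y ∈ A ↔ ∃ x ∈ Tgt G h K S0, y = l0 + Λ x) :
    A.ncard = (Tgt G h K S0).ncard := by
  have hAimg : A = (fun x => l0 + Λ x) '' Tgt G h K S0 := by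
    ext y
    rw [hA]
    constructor
    · rintro ⟨x, hx, rfl⟩; exact ⟨x, hx, rfl⟩
    · rintro ⟨x, hx, rfl⟩; exact ⟨x, hx, rfl⟩
  rw [hAimg]
  exact Set.ncard_image_of_injective _ fun x y e => Λinj hΛ (add_left_cancel e)

/-- The number of elements of a set with a context. -/
theorem ctx_ncard (hΛ : ∀ x u, Λ x (emb u) = x u) {A : Set (Fin N → ZMod 2)}
    (hA : ∀ y, y ∈ A ↔ ∃ x ∈ Tgt G h K S0, y = l0 + Λ x) {S' : Set (Fin N → ZMod 2)}
    {c : Fin N → ZMod 2} (hc : ∀ y ∈ S', c + y ∈ A) :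
    S'.ncard = {x | x ∈ Tgt G h K S0 ∧ c + (l0 + Λ x) ∈ S'}.ncard := by
  have h1 : (fun x => c + (l0 + Λ x)) '' {x | x ∈ Tgt G h K S0 ∧ c + (l0 + Λ x) ∈ S'} = S' := by
    ext y
    constructor
    · rintro ⟨x, hx, rfl⟩
      exact hx.2
    · intro hy
      obtain ⟨x, hx, hxy⟩ := (hA _).1 (hc y hy)
      have h2 : c + (l0 + Λ x) = y := by
        rw [← hxy, ← add_assoc, pi_add_self, zero_add]
      exact ⟨x, ⟨hx, by rw [h2]; exact hy⟩, h2⟩
  rw [← h1, Set.ncard_image_of_injective]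
  · rw [h1]
  intro x y e
  exact Λinj hΛ (add_left_cancel (add_left_cancel e))

/-- The bound for the leaves in the class. -/
theorem lleaf6 {L : RelD.RelClass} (hL : RelD.Closed L) {β : ZMod 2}
    {S1 : Set (Fin k → ZMod 2)} (hS1 : S1 ∉ L k) (hS0 : S0 = {s | s + (fun _ => β) ∈ S1})
    (hemb : Function.Injective emb) (hτ : ∀ p, τ (Sum.inr p) = β) (hle : ∀ u, l0 (emb u) = τ u)
    (hΛ : ∀ x u, Λ x (emb u) = x u) {A : Set (Fin N → ZMod 2)}
    (hA : ∀ y, y ∈ A ↔ ∃ x ∈ Tgt G h K S0, y = l0 + Λ x) {z0 z1 : Fin N} {ζ : ZMod 2 × ZMod 2}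
    {S : Set (Fin N → ZMod 2)} (hS : S ∈ L N) {c : Fin N → ZMod 2}
    (hc : ∀ y ∈ cls z0 z1 ζ S, c + y ∈ A) :
    ((cls z0 z1 ζ S).ncard : ℝ) ≤
      (2 ^ (2 * k) / (2 ^ (2 * k) + 1)) ^ m * ((Tgt G h K S0).ncard : ℝ) := by
  classical
  rw [ctx_ncard hΛ hA hc]
  obtain ⟨T, hT⟩ : ∃ T, T = {x | x ∈ Tgt G h K S0 ∧ c + (l0 + Λ x) ∈ cls z0 z1 ζ S} := ⟨_, rfl⟩
  rw [← hT]
  refine tgt_leaf6 T (by rw [hT]; exact fun x hx => hx.1) ?_
  intro j
  by_contra hcon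
  push Not at hcon
  have hval : ∀ x i, (c + (l0 + Λ x)) (emb (Sum.inr (j, i))) =
      c (emb (Sum.inr (j, i))) + (β + x (Sum.inr (j, i))) := by
    intro x i
    rw [Pi.add_apply, Pi.add_apply, hle, hτ, hΛ]
  have h1 := hL.fix N _ z1 ζ.2 (hL.fix N _ z0 ζ.1 hS)
  have h2 := hL.forget N k _ (fun i : Fin k => emb (Sum.inr (j, i))) (by
    intro i i' e
    exact congrArg Prod.snd (Sum.inr_injective (hemb e))) h1
  have h3 := hL.flip k _ (fun i => c (emb (Sum.inr (j, i)))) h2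
  apply hS1
  convert h3 using 1
  have hββ : ∀ s : Fin k → ZMod 2, s + (fun _ => β) + (fun _ => β) = s := by
    intro s; rw [add_assoc, pi_add_self, add_zero]
  ext s
  constructor
  · intro hs
    have hs' : s + (fun _ => β) ∈ S0 := by
      rw [hS0]
      show s + (fun _ => β) + (fun _ => β) ∈ S1
      rw [hββ]; exact hs
    obtain ⟨x, hx, hxs⟩ := hcon _ hs'
    rw [hT] at hx
    refine ⟨c + (l0 + Λ x), ⟨⟨hx.2.1, hx.2.2.1⟩, hx.2.2.2⟩, ?_⟩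
    funext i
    have h4 := congrFun hxs i
    have h5 : x (Sum.inr (j, i)) = s i + β := h4
    show s i + c (emb (Sum.inr (j, i))) = (c + (l0 + Λ x)) (emb (Sum.inr (j, i)))
    rw [hval, h5]
    have : ∀ a b e : ZMod 2, a + b = b + (e + (a + e)) := by decide
    exact this _ _ _
  · rintro ⟨y, ⟨⟨hy, hy0⟩, hy1⟩, hsy⟩
    obtain ⟨x, hx, hxy⟩ := (hA _).1 (hc y ⟨hy, hy0, hy1⟩)
    have hyx : y = c + (l0 + Λ x) := by
      rw [← hxy, ← add_assoc, pi_add_self, zero_add]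
    have h4 : blk j x = s + (fun _ => β) := by
      funext i
      have h5 := congrFun hsy i
      simp only [Pi.add_apply] at h5
      have h6 := hval x i
      rw [← hyx] at h6
      rw [h6] at h5
      show x (Sum.inr (j, i)) = s i + β
      have : ∀ a b e f : ZMod 2, a + b = b + (e + f) → f = a + e := by decide
      exact this _ _ _ _ h5
    have h5 := hx.2 j
    rw [h4, hS0] at h5
    have h6 : s + (fun _ => β) + (fun _ => β) ∈ S1 := h5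
    rw [hββ] at h6
    exact h6

/-- The bound for the tensor network leaves. -/
theorem nleaf6 (hh : Function.Injective h) (hK : ∀ i ∈ K, ∀ b : ZMod 2, ∃ s ∈ S0, s i = b)
    {D : ℕ} (hD : ∀ v, (G.neighborSet v).ncard ≤ D) (hG : Exp G) (hne : S0.Nonempty)
    (hΛ : ∀ x u, Λ x (emb u) = x u) {A : Set (Fin N → ZMod 2)}
    (hA : ∀ y, y ∈ A ↔ ∃ x ∈ Tgt G h K S0, y = l0 + Λ x) {z0 z1 : Fin N} {ζ : ZMod 2 × ZMod 2}
    {S : Set (Fin N → ZMod 2)} {W : ℕ} (hS : NetLeaf W S) {c : Fin N → ZMod 2}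
    (hc : ∀ y ∈ cls z0 z1 ζ S, c + y ∈ A)
    (M k0 t : ℕ) (hM : 1 ≤ M) (hMV : 128 * M ≤ Fintype.card V)
    (ht : t * (D + 2 * k + 1) ≤ (M + 1) / 2)
    (δ : ℝ) (hδ0 : 0 ≤ δ) (hδ : (128 * (W : ℝ)) ^ (2 * (k0 + 1)) *
      (16 ^ M * ((2 ^ (D + 2 * k + 1) / (2 ^ (D + 2 * k + 1) + 1)) ^ t) ^ k0 +
        (2 ^ (D + 2 * k + 1) / (2 ^ (D + 2 * k + 1) + 1)) ^ t) ≤ δ ^ (4 * (k0 + 1))) :
    ((cls z0 z1 ζ S).ncard : ℝ) ≤ δ * ((Tgt G h K S0).ncard : ℝ) := by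
  classical
  obtain ⟨s0, hs0⟩ := hne
  obtain ⟨d, Θ, Θ', hdk, hΘ, hex, hψ⟩ := exists_param S0 s0
  have hAC := ac_AW hh hK hD hdk hs0 hΘ hex hψ
  obtain ⟨F, _, f, e, U, hf, hU, hfU⟩ := hS
  let Λ6 : (Ut V m d → ZMod 2) →ₗ[ZMod 2] (Fin N → ZMod 2) := Λ ∘ₗ JJ V m Θ
  let coreN : (Fin N → ZMod 2) →ₗ[ZMod 2] (Ut V m k → ZMod 2) :=
    LinearMap.funLeft (ZMod 2) (ZMod 2) emb
  let core6 : (Fin N → ZMod 2) →ₗ[ZMod 2] (Ut V m d → ZMod 2) := JJ V m Θ' ∘ₗ coreN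
  let cl : (Fin N → ZMod 2) →ₗ[ZMod 2] (ZMod 2 × ZMod 2) :=
    LinearMap.prod (LinearMap.proj z0) (LinearMap.proj z1)
  have hcoreN : ∀ x, coreN (Λ x) = x := by
    intro x; funext u; exact hΛ x u
  have hcore6 : ∀ x, core6 (Λ6 x) = x := by
    intro x
    show JJ V m Θ' (coreN (Λ (JJ V m Θ x))) = x
    rw [hcoreN, JJ_comp hΘ]
  obtain ⟨l1, hl1⟩ : ∃ l1, l1 = c + (l0 + Λ (j0 V m s0)) := ⟨_, rfl⟩
  have hpt : ∀ x, l1 + Λ6 x = c + (l0 + Λ (j0 V m s0 + JJ V m Θ x)) := by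
    intro x
    rw [hl1, map_add]
    show _ + Λ (JJ V m Θ x) = _
    abel
  let Y : Finset (Ut V m d → ZMod 2) := (AW G h K S0 s0 Θ).filter
    fun x => l1 + Λ6 x ∈ cls z0 z1 ζ S
  have hb := leaf_bound6 (GW G m d) (AW G h K S0 s0 Θ) AW_VC (by positivity) hAC
    (univ.image fun v : V => (Sum.inl v : Ut V m d)) (20 * M) (12 * M) M hM (linked6 hG M)
    (by rw [card_hubs]; omega) (by omega) cl core6 Λ6 hcore6 (core6 l1) l1 rfl f e W U hU hfU ζ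
    (by
      intro y hy hyζ
      have hyS : y ∈ cls z0 z1 ζ S := by
        refine ⟨(hf y).1 hy, ?_, ?_⟩
        · rw [← hyζ]; rfl
        · rw [← hyζ]; rfl
      obtain ⟨x, hx, hxy⟩ := (hA _).1 (hc y hyS)
      have hyx : y = c + (l0 + Λ x) := by
        rw [← hxy, ← add_assoc, pi_add_self, zero_add]
      have hx' : x = j0 V m s0 + JJ V m Θ (JJ V m Θ' (j0 V m s0 + x)) :=
        (pre_spec hΘ hex hx).symm
      have hyl : y = l1 + Λ6 (JJ V m Θ' (j0 V m s0 + x)) := by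
        rw [hpt, ← hx']; exact hyx
      have h5 : core6 y + core6 l1 = JJ V m Θ' (j0 V m s0 + x) := by
        rw [hyl, map_add, hcore6]
        have : ∀ a b : Ut V m d → ZMod 2, a + b + a = (a + a) + b := by intro a b; abel
        rw [this, pi_add_self, zero_add]
      rw [h5, mem_AW, ← hx']
      exact hx) Y (filter_subset _ _) (by
      intro x hx
      have h1 := (mem_filter.1 hx).2
      refine ⟨(hf _).2 h1.1, ?_⟩
      exact Prod.ext h1.2.1 h1.2.2) k0 t ht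
  have hYc : (cls z0 z1 ζ S).ncard = Y.card := by
    have h1 : (fun x => l1 + Λ6 x) '' (Y : Set (Ut V m d → ZMod 2)) = cls z0 z1 ζ S := by
      ext y
      constructor
      · rintro ⟨x, hx, rfl⟩
        exact (mem_filter.1 (Finset.mem_coe.1 hx)).2
      · intro hy
        obtain ⟨x, hx, hxy⟩ := (hA _).1 (hc y hy)
        have hyx : y = c + (l0 + Λ x) := by
          rw [← hxy, ← add_assoc, pi_add_self, zero_add]
        have hx' : x = j0 V m s0 + JJ V m Θ (JJ V m Θ' (j0 V m s0 + x)) :=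
          (pre_spec hΘ hex hx).symm
        have hyl : l1 + Λ6 (JJ V m Θ' (j0 V m s0 + x)) = y := by
          rw [hpt, ← hx', hyx]
        refine ⟨JJ V m Θ' (j0 V m s0 + x), Finset.mem_coe.2 (mem_filter.2 ⟨?_, ?_⟩), hyl⟩
        · rw [mem_AW, ← hx']; exact hx
        · show l1 + Λ6 (JJ V m Θ' (j0 V m s0 + x)) ∈ _
          rw [hyl]; exact hy
    rw [← h1, Set.ncard_image_of_injective, Set.ncard_coe_finset]
    intro x y e'
    have := add_left_cancel e'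
    rw [← hcore6 x, ← hcore6 y, this]
  have hAWc : (AW G h K S0 s0 Θ).card = (Tgt G h K S0).ncard := by
    have h1 : (fun x => j0 V m s0 + JJ V m Θ x) ''
        ((AW G h K S0 s0 Θ : Finset (Ut V m d → ZMod 2)) : Set (Ut V m d → ZMod 2)) =
        Tgt G h K S0 := by
      ext y
      constructor
      · rintro ⟨x, hx, rfl⟩
        exact mem_AW.1 (Finset.mem_coe.1 hx)
      · intro hy
        refine ⟨JJ V m Θ' (j0 V m s0 + y), Finset.mem_coe.2 ?_, pre_spec hΘ hex hy⟩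
        rw [mem_AW, pre_spec hΘ hex hy]; exact hy
    rw [← h1, Set.ncard_image_of_injective, Set.ncard_coe_finset]
    intro x y e'
    have := add_left_cancel e'
    rw [← JJ_comp hΘ x, ← JJ_comp hΘ y, this]
  rw [hAWc] at hb
  rw [hYc]
  have h3 : (Y.card : ℝ) ^ (4 * (k0 + 1)) ≤ (δ * (Tgt G h K S0).ncard) ^ (4 * (k0 + 1)) := by
    refine hb.trans ?_
    rw [← mul_assoc, mul_pow δ]
    exact mul_le_mul_of_nonneg_right hδ (by positivity)
  exact (pow_le_pow_iff_left₀ (Nat.cast_nonneg _) (by positivity) (by omega)).1 h3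

/-- The bound for sumsets. -/
theorem beta6 (hh : Function.Injective h) (hK : ∀ i ∈ K, ∀ b : ZMod 2, ∃ s ∈ S0, s i = b)
    (hK' : ∀ i ∉ K, ∀ s ∈ S0, ∀ s' ∈ S0, s i = s' i)
    {D : ℕ} (hD : ∀ v, (G.neighborSet v).ncard ≤ D) (hG : Exp G) (h2 : 2 ≤ Fintype.card V)
    (hle : ∀ u, l0 (emb u) = τ u)
    (hΛ : ∀ x u, Λ x (emb u) = x u) {A : Set (Fin N → ZMod 2)}
    (hA : ∀ y, y ∈ A ↔ ∃ x ∈ Tgt G h K S0, y = l0 + Λ x) (a : ℕ)
    (U U' : Set (Fin N → ZMod 2)) (hUU : ∀ u ∈ U, ∀ v ∈ U', u + v ∈ A)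
    (hU : 2 ^ a ≤ U.ncard) (hU' : 2 ^ a ≤ U'.ncard) :
    ((ssum U U').ncard : ℝ) ≤ (2 ^ (2 * (D + 2 * k + 1)) / (2 ^ (2 * (D + 2 * k + 1)) + 1)) ^
      (a / 7 / (2 * (D + 2 * k + 1) ^ 2)) * (Tgt G h K S0).ncard := by
  classical
  let core : (Fin N → ZMod 2) → (Ut V m k → ZMod 2) := fun y u => y (emb u)
  have hcadd : ∀ y y', core (y + y') = core y + core y' := fun _ _ => rfl
  have hcoreA : ∀ x, core (l0 + Λ x) = τ + x := by
    intro x; funext u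
    show l0 (emb u) + Λ x (emb u) = τ u + x u
    rw [hle, hΛ]
  have hτ2 : ∀ x : Ut V m k → ZMod 2, τ + (τ + x) = x := by
    intro x; rw [← add_assoc, pi_add_self, zero_add]
  have hcoreT : ∀ y ∈ A, τ + core y ∈ Tgt G h K S0 := by
    intro y hy
    obtain ⟨x, hx, rfl⟩ := (hA y).1 hy
    rw [hcoreA, hτ2]; exact hx
  have hcoreinj : ∀ y ∈ A, ∀ y' ∈ A, (∀ u ∈ XK (V := V) (m := m) K, core y u = core y' u) →
      y = y' := by
    intro y hy y' hy' e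
    have e2 := tgt_det6 hK' (hcoreT y hy) (hcoreT y' hy') (by
      intro u hu
      rw [Pi.add_apply, Pi.add_apply, e u hu])
    obtain ⟨x, -, rfl⟩ := (hA y).1 hy
    obtain ⟨x', -, rfl⟩ := (hA y').1 hy'
    rw [hcoreA, hcoreA, hτ2, hτ2] at e2
    rw [e2]
  have hne : ∀ U : Set (Fin N → ZMod 2), 2 ^ a ≤ U.ncard → U.Nonempty := by
    intro U hU
    exact (Set.ncard_pos (Set.toFinite _)).1 (lt_of_lt_of_le (by positivity) hU)
  obtain ⟨u0, hu0⟩ := hne U hU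
  obtain ⟨v0, hv0⟩ := hne U' hU'
  have hpat : ∀ (U : Set (Fin N → ZMod 2)) (sh : Ut V m k → ZMod 2),
      (∀ y ∈ U, ∀ y' ∈ U, (∀ u ∈ XK (V := V) (m := m) K, core y u = core y' u) → y = y') →
      pat (XK K) ((fun y => sh + core y) '' U) = U.ncard := by
    intro U sh hinj
    unfold pat
    rw [Set.image_image]
    refine Set.InjOn.ncard_image ?_
    intro y hy y' hy' e
    refine hinj y hy y' hy' fun u hu => ?_
    have := congrFun e ⟨u, hu⟩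
    exact add_left_cancel this
  have hin : ∀ y ∈ U, ∀ y' ∈ U, (∀ u ∈ XK (V := V) (m := m) K, core y u = core y' u) →
      y = y' := by
    intro y hy y' hy' e
    have h3 := hcoreinj _ (hUU y hy v0 hv0) _ (hUU y' hy' v0 hv0) (by
      intro u hu
      rw [hcadd, hcadd, Pi.add_apply, Pi.add_apply, e u hu])
    exact add_right_cancel h3
  have hin' : ∀ y ∈ U', ∀ y' ∈ U', (∀ u ∈ XK (V := V) (m := m) K, core y u = core y' u) →
      y = y' := by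
    intro y hy y' hy' e
    have h3 := hcoreinj _ (hUU u0 hu0 y hy) _ (hUU u0 hu0 y' hy') (by
      intro u hu
      rw [hcadd, hcadd, Pi.add_apply, Pi.add_apply, e u hu])
    exact add_left_cancel h3
  have hs := RelD.sumset_gen (Gr G h K) (GrB G h K) (D + 2 * k)
    (fun v => grB_degree6 hh hD v) (fun u v huv => ⟨(Gr G h K).ne_of_adj huv, Or.inl huv⟩)
    (Tgt G h K S0) (fun x hx => hx.1)
    (fun u v huv p q hpq x hx => tgt_patch6 hh hK u v huv p q hpq x hx)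
    (XK K) a (a / 7) (star6 hh hG h2 a) ((fun y => τ + core y) '' U)
    ((fun y => 0 + core y) '' U') (by
      rintro _ ⟨y, hy, rfl⟩ _ ⟨y', hy', rfl⟩
      have := hcoreT _ (hUU y hy y' hy')
      rw [hcadd] at this
      show τ + core y + (0 + core y') ∈ _
      rw [zero_add, add_assoc]; exact this)
    (by rw [hpat U τ hin]; exact hU) (by rw [hpat U' 0 hin']; exact hU')
  refine le_trans ?_ hs
  have hin2 : Set.InjOn (fun y => τ + core y) (ssum U U') := by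
    rintro y ⟨u, hu, w, hw, rfl⟩ y' ⟨u', hu', w', hw', rfl⟩ e
    refine hcoreinj _ (hUU u hu w hw) _ (hUU u' hu' w' hw') fun u _ => ?_
    exact congrFun (add_left_cancel e) u
  rw [← hin2.ncard_image]
  have h5 : (fun y => τ + core y) '' (ssum U U') ⊆
      ssum ((fun y => τ + core y) '' U) ((fun y => 0 + core y) '' U') := by
    rintro _ ⟨_, ⟨u, hu, w, hw, rfl⟩, rfl⟩
    exact ⟨_, ⟨u, hu, rfl⟩, _, ⟨w, hw, rfl⟩, by
      show τ + core (u + w) = τ + core u + (0 + core w)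
      rw [hcadd, zero_add, add_assoc]⟩
  exact_mod_cast Set.ncard_le_ncard h5 (Set.toFinite _)

/-- **The main inequality.** -/
theorem main6 {L : RelD.RelClass} (hL : RelD.Closed L) {β : ZMod 2}
    {S1 : Set (Fin k → ZMod 2)} (hS1 : S1 ∉ L k) (hS0 : S0 = {s | s + (fun _ => β) ∈ S1})
    (hh : Function.Injective h) (hK : ∀ i ∈ K, ∀ b : ZMod 2, ∃ s ∈ S0, s i = b)
    (hK' : ∀ i ∉ K, ∀ s ∈ S0, ∀ s' ∈ S0, s i = s' i) (hne : S0.Nonempty)
    {D : ℕ} (hD : ∀ v, (G.neighborSet v).ncard ≤ D) (hG : Exp G)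
    {S : Set (Fin N → ZMod 2)} {z0 z1 : Fin N}
    (hemb : Function.Injective emb) (hτ : ∀ p, τ (Sum.inr p) = β)
    (hI1 : ∀ y ∈ S, y z0 = 0 → y z1 = 1 → ∃ x ∈ Tgt G h K S0, y = l0 + Λ x)
    (hI2 : ∀ x ∈ Tgt G h K S0, l0 + Λ x ∈ S) (hl0 : l0 z0 = 0) (hl1 : l0 z1 = 1)
    (hle : ∀ u, l0 (emb u) = τ u)
    (hΛ : ∀ x, Λ x z0 = 0 ∧ Λ x z1 = 0 ∧ ∀ u, Λ x (emb u) = x u)
    (a M k0 t : ℕ) (hM : 1 ≤ M) (hMV : 128 * M ≤ Fintype.card V)
    (ht : t * (D + 2 * k + 1) ≤ (M + 1) / 2)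
    {g : Type} [Fintype g] {rk : g → ℕ} {W : ℕ} {Mg : g → Set (Fin N → ZMod 2)}
    (hMg : IsProgL (fun S => NetLeaf W S ∨ S ∈ L N) rk Mg) {v : g} (hv : Mg v = S)
    (δ : ℝ) (hδ0 : 0 ≤ δ) (hδ : (128 * (W : ℝ)) ^ (2 * (k0 + 1)) *
      (16 ^ M * ((2 ^ (D + 2 * k + 1) / (2 ^ (D + 2 * k + 1) + 1)) ^ t) ^ k0 +
        (2 ^ (D + 2 * k + 1) / (2 ^ (D + 2 * k + 1) + 1)) ^ t) ≤ δ ^ (4 * (k0 + 1))) :
    ((Tgt G h K S0).ncard : ℝ) ≤ (4 * (Fintype.card g : ℝ) *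
        (2 ^ (2 * (D + 2 * k + 1)) / (2 ^ (2 * (D + 2 * k + 1)) + 1)) ^
          (a / 7 / (2 * (D + 2 * k + 1) ^ 2)) +
      4 * (Fintype.card g : ℝ) * (2 ^ a * ((2 ^ (2 * k) / (2 ^ (2 * k) + 1)) ^ m + δ))) *
        (Tgt G h K S0).ncard +
      2 * (4 * (Fintype.card g : ℝ)) ^ 3 * ((2 : ℝ) ^ a) ^ 3 := by
  classical
  obtain ⟨A, hA⟩ : ∃ A : Set (Fin N → ZMod 2), A = cls z0 z1 (0, 1) S := ⟨_, rfl⟩
  have hAmem : ∀ y, y ∈ A ↔ ∃ x ∈ Tgt G h K S0, y = l0 + Λ x := by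
    intro y
    rw [hA]
    constructor
    · rintro ⟨hy, h0, h1⟩; exact hI1 y hy h0 h1
    · rintro ⟨x, hx, rfl⟩
      refine ⟨hI2 x hx, ?_, ?_⟩
      · rw [Pi.add_apply, hl0, (hΛ x).1, add_zero]
      · rw [Pi.add_apply, hl1, (hΛ x).2.1, add_zero]
  have hΛ3 : ∀ x u, Λ x (emb u) = x u := fun x u => (hΛ x).2.2 u
  have hAcard : A.ncard = (Tgt G h K S0).ncard := A_ncard hΛ3 hAmem
  have hprog := slice_isProg hMg z0 z1
  have htop : cls z0 z1 ((v, ((0 : ZMod 2), (1 : ZMod 2))).2)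
      (Mg ((v, ((0 : ZMod 2), (1 : ZMod 2))).1)) = A := by
    rw [hA]
    show cls z0 z1 (0, 1) (Mg v) = _
    rw [hv]
  have hδ1 : (0 : ℝ) ≤ (2 ^ (2 * k) / (2 ^ (2 * k) + 1)) ^ m := by positivity
  have hlam : ∀ S' : Set (Fin N → ZMod 2),
      (∃ S ζ, (NetLeaf W S ∨ S ∈ L N) ∧ S' = cls z0 z1 ζ S) → (ctx A S').ncard < 2 ^ a →
      ((ssum (ctx A S') S').ncard : ℝ) ≤
        (2 ^ a * ((2 ^ (2 * k) / (2 ^ (2 * k) + 1)) ^ m + δ)) * A.ncard := by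
    rintro S' ⟨S2, ζ, hS2, rfl⟩ hctx
    have hstep : ∀ c ∈ ctx A (cls z0 z1 ζ S2), ((cls z0 z1 ζ S2).ncard : ℝ) ≤
        ((2 ^ (2 * k) / (2 ^ (2 * k) + 1)) ^ m + δ) * A.ncard := by
      intro c hc
      rw [hAcard]
      rcases hS2 with hS2 | hS2
      · refine (nleaf6 hh hK hD hG hne hΛ3 hAmem hS2 hc M k0 t hM hMV ht δ hδ0 hδ).trans ?_
        exact mul_le_mul_of_nonneg_right (by linarith) (Nat.cast_nonneg _)
      · refine (lleaf6 hL hS1 hS0 hemb hτ hle hΛ3 hAmem hS2 hc).trans ?_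
        exact mul_le_mul_of_nonneg_right (by linarith) (Nat.cast_nonneg _)
    rcases (ctx A (cls z0 z1 ζ S2)).eq_empty_or_nonempty with he | ⟨c, hc⟩
    · have : ssum (ctx A (cls z0 z1 ζ S2)) (cls z0 z1 ζ S2) = ∅ := by
        rw [he]
        ext z
        constructor
        · rintro ⟨u, hu, -⟩; exact absurd hu (Set.notMem_empty _)
        · intro h'; exact absurd h' (Set.notMem_empty _)
      rw [this, Set.ncard_empty, Nat.cast_zero]
      positivity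
    · have h4 := hstep c hc
      have h5 : ((ssum (ctx A (cls z0 z1 ζ S2)) (cls z0 z1 ζ S2)).ncard : ℝ) ≤
          (ctx A (cls z0 z1 ζ S2)).ncard * (cls z0 z1 ζ S2).ncard := by
        exact_mod_cast ssum_ncard (ctx A (cls z0 z1 ζ S2)) (cls z0 z1 ζ S2)
      have h6 : ((ctx A (cls z0 z1 ζ S2)).ncard : ℝ) ≤ 2 ^ a := by exact_mod_cast hctx.le
      refine h5.trans ((mul_le_mul h6 h4 (Nat.cast_nonneg _) (by positivity)).trans ?_)
      apply le_of_eq; ring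
  have hβ0 : (0 : ℝ) ≤ (2 ^ (2 * (D + 2 * k + 1)) / (2 ^ (2 * (D + 2 * k + 1)) + 1)) ^
      (a / 7 / (2 * (D + 2 * k + 1) ^ 2)) := by positivity
  have h2V : 2 ≤ Fintype.card V := by omega
  have hpb := path_bound3 (fun w : g × (ZMod 2 × ZMod 2) => rk w.1) (2 ^ a) Nat.one_le_two_pow
    (fun w => cls z0 z1 w.2 (Mg w.1)) hprog A (v, (0, 1)) htop _
    (2 ^ a * ((2 ^ (2 * k) / (2 ^ (2 * k) + 1)) ^ m + δ)) hβ0 (by positivity)
    (fun U U' hUU hU hU' => by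
      rw [hAcard]
      exact beta6 hh hK hK' hD hG h2V hle hΛ3 hAmem a U U' hUU hU hU')
    hlam
  have hc4 : (Fintype.card (g × (ZMod 2 × ZMod 2)) : ℝ) = 4 * (Fintype.card g : ℝ) := by
    rw [Fintype.card_prod, Fintype.card_prod, ZMod.card]; push_cast; ring
  rw [hc4, hAcard] at hpb
  push_cast at hpb
  linarith

end

end Pool.Agent.RelNet
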