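import Pool.Agent.Helper91.RN.Str6b
import Pool.Agent.Helper91.RN.Anti6

/-!
The target in coordinates in which no linear functional is constant on it; anti-concentration.
-/

namespace Pool.Agent.RelNet

open Finset Module Pool.Agent.Dichotomy

set_option linter.unusedSectionVars false

/-- Coordinates on the affine hull of a nonempty set. -/
theorem exists_param {k : ℕ} (S0 : Set (Fin k → ZMod 2)) (s0 : Fin k → ZMod 2) :
    ∃ (d : ℕ) (Θ : (Fin d → ZMod 2) →ₗ[ZMod 2] (Fin k → ZMod 2))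
      (Θ' : (Fin k → ZMod 2) →ₗ[ZMod 2] (Fin d → ZMod 2)), d ≤ k ∧ (∀ z, Θ' (Θ z) = z) ∧
      (∀ s ∈ S0, ∃ z, s = s0 + Θ z) ∧
      ∀ ψ : (Fin d → ZMod 2) →ₗ[ZMod 2] ZMod 2, ψ ≠ 0 → ∃ z, s0 + Θ z ∈ S0 ∧ ψ z ≠ 0 := by
  classical
  obtain ⟨T, hT⟩ : ∃ T : Set (Fin k → ZMod 2), T = {u | ∃ s ∈ S0, u = s + s0} := ⟨_, rfl⟩
  let H : Submodule (ZMod 2) (Fin k → ZMod 2) := Submodule.span (ZMod 2) T
  let b := Module.finBasis (ZMod 2) H
  let Θ : (Fin (finrank (ZMod 2) H) → ZMod 2) →ₗ[ZMod 2] (Fin k → ZMod 2) :=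
    H.subtype ∘ₗ (b.equivFun.symm : (Fin (finrank (ZMod 2) H) → ZMod 2) →ₗ[ZMod 2] H)
  have hΘinj : Function.Injective Θ := by
    intro x y hxy
    exact b.equivFun.symm.injective (Subtype.ext hxy)
  obtain ⟨Θ', hΘ'⟩ := LinearMap.exists_leftInverse_of_injective Θ
    (LinearMap.ker_eq_bot.2 hΘinj)
  have hΘ'' : ∀ z, Θ' (Θ z) = z := fun z => LinearMap.congr_fun hΘ' z
  have hrange : ∀ u ∈ H, ∃ z, Θ z = u := by
    intro u hu
    refine ⟨b.equivFun ⟨u, hu⟩, ?_⟩
    show ((b.equivFun.symm (b.equivFun ⟨u, hu⟩) : H) : Fin k → ZMod 2) = u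
    rw [LinearEquiv.symm_apply_apply]
  have hss : s0 + s0 = 0 := pi_add_self s0
  have hex : ∀ s ∈ S0, ∃ z, s = s0 + Θ z := by
    intro s hs
    obtain ⟨z, hz⟩ := hrange (s + s0) (Submodule.subset_span (by rw [hT]; exact ⟨s, hs, rfl⟩))
    refine ⟨z, ?_⟩
    rw [hz, add_comm s s0, ← add_assoc, hss, zero_add]
  refine ⟨finrank (ZMod 2) H, Θ, Θ', ?_, hΘ'', hex, ?_⟩
  · have := Submodule.finrank_le H
    rwa [Module.finrank_fintype_fun_eq_card, Fintype.card_fin] at this
  · intro ψ hψ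
    by_contra hcon
    push Not at hcon
    apply hψ
    have h1 : H ≤ LinearMap.ker (ψ ∘ₗ Θ') := by
      refine Submodule.span_le.2 ?_
      intro u hu
      rw [hT] at hu
      obtain ⟨s, hs, rfl⟩ := hu
      obtain ⟨z, hz⟩ := hex s hs
      rw [SetLike.mem_coe, LinearMap.mem_ker]
      have h2 : s + s0 = Θ z := by rw [hz, add_comm, ← add_assoc, hss, zero_add]
      rw [h2, LinearMap.comp_apply, hΘ'']
      exact hcon z (by rw [← hz]; exact hs)
    ext1 i
    have h2 : Θ (Pi.single i 1) ∈ H := by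
      show ((b.equivFun.symm (Pi.single i 1) : H) : Fin k → ZMod 2) ∈ H
      exact Subtype.prop _
    have h3 := LinearMap.mem_ker.1 (h1 h2)
    rw [LinearMap.comp_apply, hΘ''] at h3
    ext
    simpa using h3

section

variable {V : Type} [Fintype V] [DecidableEq V] {m k d : ℕ} {G : SimpleGraph V}
  {h : Fin m × Fin k → V} {K : Finset (Fin k)} {S0 : Set (Fin k → ZMod 2)}

/-- The hub edges, on the new coordinates. -/
def GW (G : SimpleGraph V) (m d : ℕ) : SimpleGraph (Ut V m d) where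
  Adj u v := match u, v with
    | Sum.inl a, Sum.inl b => G.Adj a b
    | _, _ => False
  symm := ⟨by
    rintro (a | p) (b | q) hab
    · exact (show G.Adj a b from hab).symm
    · exact hab
    · exact hab
    · exact hab⟩
  loopless := ⟨by
    rintro (a | p) hab
    · exact G.loopless.irrefl a hab
    · exact hab⟩

/-- The parametrisation of the blocks. -/
def JJ (V : Type) (m : ℕ) (Θ : (Fin d → ZMod 2) →ₗ[ZMod 2] (Fin k → ZMod 2)) :
    (Ut V m d → ZMod 2) →ₗ[ZMod 2] (Ut V m k → ZMod 2) :=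
  LinearMap.pi fun u => match u with
    | Sum.inl v => LinearMap.proj (Sum.inl v)
    | Sum.inr p => LinearMap.proj p.2 ∘ₗ Θ ∘ₗ
        LinearMap.funLeft (ZMod 2) (ZMod 2) (fun b : Fin d => (Sum.inr (p.1, b) : Ut V m d))

theorem JJ_inl (Θ : (Fin d → ZMod 2) →ₗ[ZMod 2] (Fin k → ZMod 2)) (x : Ut V m d → ZMod 2)
    (v : V) : JJ V m Θ x (Sum.inl v) = x (Sum.inl v) := rfl

theorem JJ_inr (Θ : (Fin d → ZMod 2) →ₗ[ZMod 2] (Fin k → ZMod 2)) (x : Ut V m d → ZMod 2)
    (j : Fin m) (i : Fin k) :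
    JJ V m Θ x (Sum.inr (j, i)) = Θ (fun b => x (Sum.inr (j, b))) i := rfl

theorem JJ_comp {Θ : (Fin d → ZMod 2) →ₗ[ZMod 2] (Fin k → ZMod 2)}
    {Θ' : (Fin k → ZMod 2) →ₗ[ZMod 2] (Fin d → ZMod 2)} (hΘ : ∀ z, Θ' (Θ z) = z)
    (x : Ut V m d → ZMod 2) : JJ V m Θ' (JJ V m Θ x) = x := by
  funext u
  rcases u with v | ⟨j, b⟩
  · rfl
  · rw [JJ_inr]
    have : (fun i => JJ V m Θ x (Sum.inr (j, i))) = Θ (fun b => x (Sum.inr (j, b))) := by
      funext i; exact JJ_inr Θ x j i
    rw [this, hΘ]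

/-- The base point. -/
def j0 (V : Type) (m : ℕ) (s0 : Fin k → ZMod 2) : Ut V m k → ZMod 2
  | Sum.inl _ => 0
  | Sum.inr p => s0 p.2

/-- The target in the new coordinates. -/
noncomputable def AW (G : SimpleGraph V) (h : Fin m × Fin k → V) (K : Finset (Fin k))
    (S0 : Set (Fin k → ZMod 2)) (s0 : Fin k → ZMod 2)
    (Θ : (Fin d → ZMod 2) →ₗ[ZMod 2] (Fin k → ZMod 2)) : Finset (Ut V m d → ZMod 2) := by
  classical exact univ.filter fun x => j0 V m s0 + JJ V m Θ x ∈ Tgt G h K S0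

theorem mem_AW {s0 : Fin k → ZMod 2} {Θ : (Fin d → ZMod 2) →ₗ[ZMod 2] (Fin k → ZMod 2)}
    {x : Ut V m d → ZMod 2} : x ∈ AW G h K S0 s0 Θ ↔ j0 V m s0 + JJ V m Θ x ∈ Tgt G h K S0 := by
  classical
  unfold AW
  simp

theorem AW_VC {s0 : Fin k → ZMod 2} {Θ : (Fin d → ZMod 2) →ₗ[ZMod 2] (Fin k → ZMod 2)} :
    ∀ x ∈ AW G h K S0 s0 Θ, x ∈ VC (GW G m d) := by
  intro x hx
  have h1 := (mem_VC_Gr.1 (mem_AW.1 hx).1).1
  rintro (a | p) (b | q) hadj
  · have h2 := h1 a b hadj
    simp only [Pi.add_apply, JJ_inl, j0, zero_add] at h2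
    exact h2
  · exact absurd hadj id
  · exact absurd hadj id
  · exact absurd hadj id

/-- The new coordinates of an element of the target. -/
theorem pre_spec {s0 : Fin k → ZMod 2} {Θ : (Fin d → ZMod 2) →ₗ[ZMod 2] (Fin k → ZMod 2)}
    {Θ' : (Fin k → ZMod 2) →ₗ[ZMod 2] (Fin d → ZMod 2)} (hΘ : ∀ z, Θ' (Θ z) = z)
    (hex : ∀ s ∈ S0, ∃ z, s = s0 + Θ z) {y : Ut V m k → ZMod 2} (hy : y ∈ Tgt G h K S0) :
    j0 V m s0 + JJ V m Θ (JJ V m Θ' (j0 V m s0 + y)) = y := by
  funext u
  rcases u with v | ⟨j, i⟩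
  · show 0 + (0 + y (Sum.inl v)) = y (Sum.inl v)
    rw [zero_add, zero_add]
  · obtain ⟨z, hz⟩ := hex _ (hy.2 j)
    have h1 : (fun b => JJ V m Θ' (j0 V m s0 + y) (Sum.inr (j, b))) = z := by
      have h2 : (fun i => (j0 V m s0 + y) (Sum.inr (j, i))) = Θ z := by
        have h3 : (fun i => (j0 V m s0 + y) (Sum.inr (j, i))) = s0 + blk j y := rfl
        rw [h3, hz, ← add_assoc, pi_add_self, zero_add]
      funext b
      rw [JJ_inr, h2, hΘ]
    rw [Pi.add_apply, JJ_inr, h1]
    have h4 := congrFun hz i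
    exact h4.symm

/-- **Anti-concentration of the target.** -/
theorem ac_AW (hh : Function.Injective h) (hK : ∀ i ∈ K, ∀ b : ZMod 2, ∃ s ∈ S0, s i = b)
    {D : ℕ} (hD : ∀ v, (G.neighborSet v).ncard ≤ D) (hdk : d ≤ k)
    {s0 : Fin k → ZMod 2} (hs0 : s0 ∈ S0)
    {Θ : (Fin d → ZMod 2) →ₗ[ZMod 2] (Fin k → ZMod 2)}
    {Θ' : (Fin k → ZMod 2) →ₗ[ZMod 2] (Fin d → ZMod 2)} (hΘ : ∀ z, Θ' (Θ z) = z)
    (hex : ∀ s ∈ S0, ∃ z, s = s0 + Θ z)
    (hψ : ∀ ψ : (Fin d → ZMod 2) →ₗ[ZMod 2] ZMod 2, ψ ≠ 0 → ∃ z, s0 + Θ z ∈ S0 ∧ ψ z ≠ 0) :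
    AC (AW G h K S0 s0 Θ) (2 ^ (D + 2 * k + 1) / (2 ^ (D + 2 * k + 1) + 1)) (D + 2 * k + 1) := by
  classical
  refine ac_of_patch _ _ (by omega) fun φ hφ => ?_
  -- the new coordinates
  obtain ⟨pre, hpre⟩ : ∃ pre : (Ut V m k → ZMod 2) → (Ut V m d → ZMod 2),
      pre = fun y => JJ V m Θ' (j0 V m s0 + y) := ⟨_, rfl⟩
  have pre_mem : ∀ y ∈ Tgt G h K S0, pre y ∈ AW G h K S0 s0 Θ := by
    intro y hy
    rw [mem_AW, hpre, pre_spec hΘ hex hy]; exact hy
  have pre_inl : ∀ y v, pre y (Sum.inl v) = y (Sum.inl v) := by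
    intro y v
    rw [hpre]
    show 0 + y (Sum.inl v) = y (Sum.inl v)
    rw [zero_add]
  have pre_inr : ∀ (y y' : Ut V m k → ZMod 2) j, (∀ i, y (Sum.inr (j, i)) = y' (Sum.inr (j, i))) →
      ∀ b, pre y (Sum.inr (j, b)) = pre y' (Sum.inr (j, b)) := by
    intro y y' j hyy b
    rw [hpre]
    show JJ V m Θ' (j0 V m s0 + y) (Sum.inr (j, b)) = JJ V m Θ' (j0 V m s0 + y') (Sum.inr (j, b))
    rw [JJ_inr, JJ_inr]
    have : (fun i => (j0 V m s0 + y) (Sum.inr (j, i))) =
        fun i => (j0 V m s0 + y') (Sum.inr (j, i)) := by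
      funext i; rw [Pi.add_apply, Pi.add_apply, hyy i]
    rw [this]
  have pre_post : ∀ x, pre (j0 V m s0 + JJ V m Θ x) = x := by
    intro x
    rw [hpre]
    show JJ V m Θ' (j0 V m s0 + (j0 V m s0 + JJ V m Θ x)) = x
    rw [← add_assoc, pi_add_self, zero_add, JJ_comp hΘ]
  -- two values
  have hne : ∀ a b c : ZMod 2, a ≠ b → a ≠ c ∨ b ≠ c := by decide
  have two : ∀ (N : Finset (Ut V m d)) (x : Ut V m d → ZMod 2) (y y' : Ut V m d → ZMod 2),
      y ∈ AW G h K S0 s0 Θ → y' ∈ AW G h K S0 s0 Θ → (∀ v ∉ N, y v = x v) →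
      (∀ v ∉ N, y' v = x v) → φ y ≠ φ y' →
      ∃ y ∈ AW G h K S0 s0 Θ, (∀ v ∉ N, y v = x v) ∧ φ y ≠ φ x := by
    intro N x y y' h1 h2 h3 h4 h5
    rcases hne _ _ (φ x) h5 with h6 | h6
    · exact ⟨y, h1, h3, h6⟩
    · exact ⟨y', h2, h4, h6⟩
  let BL : Fin m → Finset (Ut V m d) := fun j =>
    ((Finset.univ : Finset (Fin k)).image fun i => (Sum.inl (h (j, i)) : Ut V m d)) ∪
      ((Finset.univ : Finset (Fin d)).image fun b => (Sum.inr (j, b) : Ut V m d))
  have hBL : ∀ j, (BL j).card ≤ 2 * k := by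
    intro j
    refine (card_union_le _ _).trans ?_
    have h1 := card_image_le (s := (Finset.univ : Finset (Fin k)))
      (f := fun i => (Sum.inl (h (j, i)) : Ut V m d))
    have h2 := card_image_le (s := (Finset.univ : Finset (Fin d)))
      (f := fun b => (Sum.inr (j, b) : Ut V m d))
    rw [card_univ, Fintype.card_fin] at h1 h2
    omega
  by_cases hhub : ∃ v, φ (Pi.single (Sum.inl v) 1) ≠ 0
  · obtain ⟨a, ha⟩ := hhub
    -- the block of `a`
    obtain ⟨C, hC, hCm⟩ : ∃ C : Finset (Ut V m d), C.card ≤ 2 * k ∧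
        ∀ j, InB (k := k) h j (Sum.inl a) → BL j ⊆ C := by
      by_cases hu : ∃ j, InB (k := k) h j (Sum.inl a)
      · obtain ⟨j, i, hi⟩ := hu
        refine ⟨BL j, hBL j, ?_⟩
        rintro j' ⟨i', hi'⟩
        have := congrArg Prod.fst (hh (hi'.trans hi.symm))
        simp only at this
        subst this
        exact subset_rfl
      · exact ⟨∅, by simp, fun j hj => absurd ⟨j, hj⟩ hu⟩
    let F : Finset (Ut V m d) :=
      (Set.toFinite (G.neighborSet a)).toFinset.image fun b => (Sum.inl b : Ut V m d)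
    have hF : F.card ≤ D := by
      refine card_image_le.trans ?_
      rw [← Set.ncard_eq_toFinset_card]; exact hD a
    refine ⟨insert (Sum.inl a) (F ∪ C), ?_, ?_⟩
    · have h1 := card_insert_le (Sum.inl a) (F ∪ C)
      have h2 := card_union_le F C
      omega
    intro x hx
    obtain ⟨y, hy, h1, h2, h3, h4, h5, h6, h7⟩ := open_hub hh hK (mem_AW.1 hx) a
    have hoff : ∀ c, ∀ v ∉ insert (Sum.inl a) (F ∪ C), pre (setH a c y) v = x v := by
      intro c v hv
      rw [mem_insert, mem_union, not_or, not_or] at hv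
      obtain ⟨e1, e2, e3⟩ := hv
      have hx2 := congrFun (pre_post x) v
      rcases v with v | ⟨j, b⟩
      · have hva : v ≠ a := fun e => e1 (by rw [e])
        rw [pre_inl, setH_ne hva, ← hx2, pre_inl]
        refine h1 v hva (fun hadj => e2 ?_) ?_
        · exact mem_image.2 ⟨v, (Set.Finite.mem_toFinset _).2 hadj, rfl⟩
        · rintro ⟨j, hj, i, hi⟩
          refine e3 (hCm j hj (mem_union_left _ (mem_image.2 ⟨i, mem_univ _, ?_⟩)))
          rw [hi]
      · rw [← hx2]
        refine pre_inr _ _ j (fun i => ?_) b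
        rw [setH_inr]
        refine h2 (j, i) ?_
        rintro ⟨j', hj, hj'⟩
        have hjj : j = j' := hj'
        subst hjj
        exact e3 (hCm j hj (mem_union_right _ (mem_image.2 ⟨b, mem_univ _, rfl⟩)))
    refine two _ x (pre (setH a 1 y)) (pre (setH a 0 y)) (pre_mem _ (h7 1)) (pre_mem _ (h7 0))
      (hoff 1) (hoff 0) ?_
    intro heq
    apply ha
    have h8 : pre (setH a 1 y) = pre (setH a 0 y) + Pi.single (Sum.inl a) 1 := by
      funext v
      rcases v with v | ⟨j, b⟩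
      · rw [Pi.add_apply, pre_inl, pre_inl]
        by_cases hva : v = a
        · subst hva
          rw [setH_self, setH_self, Pi.single_eq_same, zero_add]
        · rw [setH_ne hva, setH_ne hva, Pi.single_eq_of_ne (by
            intro e; exact hva (Sum.inl_injective e)), add_zero]
      · rw [Pi.add_apply, Pi.single_eq_of_ne (by simp), add_zero]
        exact pre_inr (setH a 1 y) (setH a 0 y) j (fun i => rfl) b
    rw [h8, map_add] at heq
    have : ∀ a b : ZMod 2, a + b = a → b = 0 := by decide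
    exact this _ _ heq
  · push Not at hhub
    -- a block
    have hblk : ∃ j : Fin m, ∃ b : Fin d, φ (Pi.single (Sum.inr (j, b)) 1) ≠ 0 := by
      by_contra hcon
      push Not at hcon
      apply hφ
      apply LinearMap.pi_ext'
      intro u
      ext
      rcases u with v | ⟨j, b⟩
      · simpa using hhub v
      · simpa using hcon j b
    obtain ⟨j, b, hjb⟩ := hblk
    let ι : (Fin d → ZMod 2) →ₗ[ZMod 2] (Ut V m d → ZMod 2) :=
      LinearMap.pi fun u => match u with
        | Sum.inl _ => 0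
        | Sum.inr p => if p.1 = j then LinearMap.proj p.2 else 0
    have ι_inl : ∀ z v, ι z (Sum.inl v) = 0 := fun _ _ => rfl
    have ι_self : ∀ z b, ι z (Sum.inr (j, b)) = z b := by
      intro z b
      show (if j = j then (LinearMap.proj b : (Fin d → ZMod 2) →ₗ[ZMod 2] ZMod 2) else 0) z = z b
      rw [if_pos rfl]; rfl
    have ι_ne : ∀ z j' b, j' ≠ j → ι z (Sum.inr (j', b)) = 0 := by
      intro z j' b hj
      show (if j' = j then (LinearMap.proj b : (Fin d → ZMod 2) →ₗ[ZMod 2] ZMod 2) else 0) z = 0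
      rw [if_neg hj]; rfl
    obtain ⟨z, hz, hz1⟩ := hψ (φ ∘ₗ ι) (by
      intro h0
      apply hjb
      have h1 : ι (Pi.single b 1) = Pi.single (Sum.inr (j, b)) 1 := by
        funext v
        rcases v with v | ⟨j', b'⟩
        · rw [ι_inl, Pi.single_eq_of_ne (by simp)]
        · by_cases hjj : j' = j
          · subst hjj
            rw [ι_self]
            by_cases hb : b' = b
            · subst hb; rw [Pi.single_eq_same, Pi.single_eq_same]
            · rw [Pi.single_eq_of_ne hb, Pi.single_eq_of_ne (by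
                intro e; exact hb (congrArg Prod.snd (Sum.inr_injective e)))]
          · rw [ι_ne _ _ _ hjj, Pi.single_eq_of_ne (by
              intro e; exact hjj (congrArg Prod.fst (Sum.inr_injective e)))]
      rw [← h1, ← LinearMap.comp_apply, h0]; rfl)
    refine ⟨BL j, by have := hBL j; omega, ?_⟩
    intro x hx
    obtain ⟨y, hy, h1, h2, h3, h4⟩ := open_block (h := h) (mem_AW.1 hx) j
    have hoff : ∀ s, ∀ v ∉ BL j, pre (setB j s y) v = x v := by
      intro s v hv
      have hx2 := congrFun (pre_post x) v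
      rcases v with v | ⟨j', b'⟩
      · rw [pre_inl, setB_inl, ← hx2, pre_inl]
        refine h1 v ?_
        rintro ⟨i, hi⟩
        refine hv (mem_union_left _ (mem_image.2 ⟨i, mem_univ _, ?_⟩))
        rw [hi]
      · have hjj : j' ≠ j := by
          rintro rfl
          exact hv (mem_union_right _ (mem_image.2 ⟨b', mem_univ _, rfl⟩))
        rw [← hx2]
        refine pre_inr _ _ j' (fun i => ?_) b'
        rw [setB_ne hjj]
        exact h2 _
    refine two _ x (pre (setB j (s0 + Θ z) y)) (pre (setB j s0 y)) (pre_mem _ (h4 _ hz))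
      (pre_mem _ (h4 _ hs0)) (hoff _) (hoff _) ?_
    intro heq
    apply hz1
    have pre_blk : ∀ z, s0 + Θ z ∈ S0 → ∀ b, pre (setB j (s0 + Θ z) y) (Sum.inr (j, b)) = z b := by
      intro z _ b
      rw [hpre]
      show JJ V m Θ' (j0 V m s0 + setB j (s0 + Θ z) y) (Sum.inr (j, b)) = z b
      rw [JJ_inr]
      have : (fun i => (j0 V m s0 + setB j (s0 + Θ z) y) (Sum.inr (j, i))) = Θ z := by
        funext i
        rw [Pi.add_apply, setB_self]
        show s0 i + (s0 i + Θ z i) = Θ z i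
        have : ∀ a b : ZMod 2, a + (a + b) = b := by decide
        exact this _ _
      rw [this, hΘ]
    have h8 : pre (setB j (s0 + Θ z) y) = pre (setB j s0 y) + ι z := by
      funext v
      rcases v with v | ⟨j', b'⟩
      · rw [Pi.add_apply, pre_inl, pre_inl, ι_inl, add_zero, setB_inl, setB_inl]
      · by_cases hjj : j' = j
        · subst hjj
          rw [Pi.add_apply, pre_blk z hz, ι_self]
          have h9 := pre_blk 0 (by rw [map_zero, add_zero]; exact hs0) b'
          rw [map_zero, add_zero] at h9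
          rw [h9]
          show z b' = 0 + z b'
          rw [zero_add]
        · rw [Pi.add_apply, ι_ne _ _ _ hjj, add_zero]
          refine pre_inr _ _ j' (fun i => ?_) b'
          rw [setB_ne hjj, setB_ne hjj]
    rw [h8, map_add] at heq
    have : ∀ a b : ZMod 2, a + b = a → b = 0 := by decide
    exact this _ _ heq

/-- The hubs are linked. -/
theorem linked6 (hG : Exp G) (M : ℕ) :
    LinkedR (GW G m d) (univ.image fun v : V => (Sum.inl v : Ut V m d)) (20 * M) (12 * M) := by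
  classical
  intro A B hAB hsep hlt
  have hbd : ∀ A B : Finset (Ut V m d), A ∪ B = Finset.univ →
      (∀ u ∉ B, ∀ v ∉ A, ¬ (GW G m d).Adj u v) → (A ∩ B).card + 12 * M < 20 * M →
      2 * (univ.filter fun v : V => (Sum.inl v : Ut V m d) ∉ B).card ≤ Fintype.card V →
      ((univ.image fun v : V => (Sum.inl v : Ut V m d)) \ B).card ≤ (A ∩ B).card + 12 * M := by
    intro A B hAB hsep hlt hS
    have h1 := hG _ hS
    have h2 : (bd G (univ.filter fun v : V => (Sum.inl v : Ut V m d) ∉ B)).card ≤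
        (A ∩ B).card := by
      refine card_le_card_of_injOn (fun v => Sum.inl v) ?_ (fun a _ b _ e => Sum.inl_injective e)
      intro t ht
      obtain ⟨ht1, s, hs, hadj⟩ := mem_bd.1 (mem_coe.1 ht)
      have htB : (Sum.inl t : Ut V m d) ∈ B := by
        by_contra hcon
        exact ht1 (mem_filter.2 ⟨mem_univ _, hcon⟩)
      refine mem_coe.2 (mem_inter.2 ⟨?_, htB⟩)
      by_contra hcon
      exact hsep (Sum.inl s) (mem_filter.1 hs).2 (Sum.inl t) hcon hadj
    have h3 : ((univ.image fun v : V => (Sum.inl v : Ut V m d)) \ B).card ≤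
        (univ.filter fun v : V => (Sum.inl v : Ut V m d) ∉ B).card := by
      have h4 : (univ.image fun v : V => (Sum.inl v : Ut V m d)) \ B ⊆
          (univ.filter fun v : V => (Sum.inl v : Ut V m d) ∉ B).image fun v => Sum.inl v := by
        intro u hu
        obtain ⟨hu1, hu2⟩ := mem_sdiff.1 hu
        obtain ⟨v, -, rfl⟩ := mem_image.1 hu1
        exact mem_image.2 ⟨v, mem_filter.2 ⟨mem_univ _, hu2⟩, rfl⟩
      exact (card_le_card h4).trans card_image_le
    omega
  have hdis : (univ.filter fun v : V => (Sum.inl v : Ut V m d) ∉ B).card +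
      (univ.filter fun v : V => (Sum.inl v : Ut V m d) ∉ A).card ≤ Fintype.card V := by
    rw [← card_union_of_disjoint]
    · exact card_le_univ _
    · rw [Finset.disjoint_left]
      intro v hv hv'
      have h1 := (mem_filter.1 hv).2
      have h2 := (mem_filter.1 hv').2
      have h3 : (Sum.inl v : Ut V m d) ∈ A ∪ B := by rw [hAB]; exact mem_univ _
      rcases mem_union.1 h3 with h4 | h4
      · exact h2 h4
      · exact h1 h4
  rcases le_total (univ.filter fun v : V => (Sum.inl v : Ut V m d) ∉ B).card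
    (univ.filter fun v : V => (Sum.inl v : Ut V m d) ∉ A).card with hle | hle
  · left
    exact hbd A B hAB hsep hlt (by omega)
  · right
    rw [inter_comm] at hlt ⊢
    exact hbd B A (by rw [union_comm]; exact hAB) (fun u hu v hv hadj =>
      hsep v hv u hu hadj.symm) hlt (by omega)

theorem card_hubs : (univ.image fun v : V => (Sum.inl v : Ut V m d)).card = Fintype.card V := by
  rw [card_image_of_injective _ Sum.inl_injective, card_univ]

end

end Pool.Agent.RelNet
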