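import Pool.Agent.Helper91.Dich.Expander3
import Pool.Agent.Helper91.Dich.Greedy5
import Pool.Agent.Helper34.XTW.Switch

/-!
The target: vertex covers of a hub graph with blocks of variables attached to some of the hubs;
every block satisfies a relation `S0`.
-/

namespace Pool.Agent.RelNet

open Finset Module Pool.Agent.Dichotomy Pool.Agent.Helper34.XTW

set_option linter.unusedSectionVars false

/-- The variables: the hubs `V` and `m` blocks of `k` variables. -/
abbrev Ut (V : Type) (m k : ℕ) := V ⊕ (Fin m × Fin k)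

section

variable {V : Type} [Fintype V] [DecidableEq V] {m k : ℕ} (G : SimpleGraph V)
  (h : Fin m × Fin k → V) (K : Finset (Fin k))

/-- The graph of the or constraints: the edges of `G` and the pairs `(h p, p)` for positions
`p = (j, i)` with `i ∈ K`. -/
def Gr : SimpleGraph (Ut V m k) where
  Adj u v := match u, v with
    | Sum.inl a, Sum.inl b => G.Adj a b
    | Sum.inl a, Sum.inr p => a = h p ∧ p.2 ∈ K
    | Sum.inr p, Sum.inl a => a = h p ∧ p.2 ∈ K
    | Sum.inr _, Sum.inr _ => False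
  symm := ⟨by
    rintro (a | p) (b | q) hab
    · exact (show G.Adj a b from hab).symm
    · exact hab
    · exact hab
    · exact hab⟩
  loopless := ⟨by
    rintro (a | p) hab
    · exact G.loopless.irrefl a hab
    · exact hab⟩

/-- Membership in a block. -/
def InB (j : Fin m) : Ut V m k → Prop
  | Sum.inl v => ∃ i, h (j, i) = v
  | Sum.inr p => p.1 = j

/-- The graph of the or constraints with all blocks made complete. -/
def GrB : SimpleGraph (Ut V m k) where
  Adj u v := u ≠ v ∧ ((Gr G h K).Adj u v ∨ ∃ j, InB h j u ∧ InB h j v)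
  symm := ⟨fun _ _ hh => ⟨hh.1.symm, hh.2.imp (fun h => h.symm)
    (fun ⟨j, h1, h2⟩ => ⟨j, h2, h1⟩)⟩⟩
  loopless := ⟨fun _ hh => hh.1 rfl⟩

/-- The values of the variables of the block `j`. -/
def blk (j : Fin m) (x : Ut V m k → ZMod 2) : Fin k → ZMod 2 := fun i => x (Sum.inr (j, i))

/-- The target: all or constraints hold and every block satisfies the relation `S0`. -/
def Tgt (S0 : Set (Fin k → ZMod 2)) : Set (Ut V m k → ZMod 2) :=
  {x | x ∈ VC (Gr G h K) ∧ ∀ j, blk j x ∈ S0}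

/-- The variables which determine the elements of the target. -/
noncomputable def XK : Finset (Ut V m k) := by
  classical exact Finset.univ.filter fun u => ∀ p, u = Sum.inr p → p.2 ∈ K

theorem inl_mem_XK (v : V) : (Sum.inl v : Ut V m k) ∈ XK (V := V) (m := m) K := by
  classical
  unfold XK
  simp

theorem inr_mem_XK {p : Fin m × Fin k} :
    (Sum.inr p : Ut V m k) ∈ XK (V := V) (m := m) K ↔ p.2 ∈ K := by
  classical
  unfold XK
  rw [Finset.mem_filter]
  constructor
  · rintro ⟨-, hp⟩; exact hp p rfl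
  · intro hp
    refine ⟨Finset.mem_univ _, fun q hq => ?_⟩
    rw [← Sum.inr_injective hq]; exact hp

variable {G h K}

theorem mem_VC_Gr {x : Ut V m k → ZMod 2} : x ∈ VC (Gr G h K) ↔
    (∀ a b, G.Adj a b → x (Sum.inl a) = 1 ∨ x (Sum.inl b) = 1) ∧
      ∀ p, p.2 ∈ K → x (Sum.inl (h p)) = 1 ∨ x (Sum.inr p) = 1 := by
  constructor
  · intro hx
    exact ⟨fun a b hab => hx (Sum.inl a) (Sum.inl b) hab,
      fun p hp => hx (Sum.inl (h p)) (Sum.inr p) ⟨rfl, hp⟩⟩
  · rintro ⟨h1, h2⟩ (a | p) (b | q) hab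
    · exact h1 a b hab
    · obtain ⟨rfl, hq⟩ := hab
      exact h2 q hq
    · obtain ⟨rfl, hp⟩ := hab
      exact (h2 p hp).symm
    · exact absurd hab id

variable (V m k) in
/-- Set the hubs in `Z` to one. -/
noncomputable def set1 (Z : Set V) (x : Ut V m k → ZMod 2) : Ut V m k → ZMod 2 := by
  classical exact fun u => match u with
    | Sum.inl v => if v ∈ Z then 1 else x (Sum.inl v)
    | Sum.inr p => x (Sum.inr p)

/-- Change the block `j`. -/
def setB (j : Fin m) (s : Fin k → ZMod 2) (x : Ut V m k → ZMod 2) : Ut V m k → ZMod 2 :=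
  fun u => match u with
    | Sum.inl v => x (Sum.inl v)
    | Sum.inr p => if p.1 = j then s p.2 else x (Sum.inr p)

/-- Change the hub `a`. -/
def setH (a : V) (c : ZMod 2) (x : Ut V m k → ZMod 2) : Ut V m k → ZMod 2 :=
  fun u => match u with
    | Sum.inl v => if v = a then c else x (Sum.inl v)
    | Sum.inr p => x (Sum.inr p)

theorem set1_pos {Z : Set V} (x : Ut V m k → ZMod 2) {v : V} (hv : v ∈ Z) :
    set1 V m k Z x (Sum.inl v) = 1 := by
  classical
  unfold set1
  simp [hv]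

theorem set1_neg {Z : Set V} (x : Ut V m k → ZMod 2) {v : V} (hv : v ∉ Z) :
    set1 V m k Z x (Sum.inl v) = x (Sum.inl v) := by
  classical
  unfold set1
  simp [hv]

theorem set1_of_one {Z : Set V} (x : Ut V m k → ZMod 2) {v : V} (hv : x (Sum.inl v) = 1) :
    set1 V m k Z x (Sum.inl v) = 1 := by
  by_cases h : v ∈ Z
  · exact set1_pos x h
  · rw [set1_neg x h]; exact hv

theorem set1_inr {Z : Set V} (x : Ut V m k → ZMod 2) (p : Fin m × Fin k) :
    set1 V m k Z x (Sum.inr p) = x (Sum.inr p) := rfl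

theorem setB_inl (j : Fin m) (s : Fin k → ZMod 2) (x : Ut V m k → ZMod 2) (v : V) :
    setB j s x (Sum.inl v) = x (Sum.inl v) := rfl

theorem setB_self (j : Fin m) (s : Fin k → ZMod 2) (x : Ut V m k → ZMod 2) (i : Fin k) :
    setB j s x (Sum.inr (j, i)) = s i := by
  simp [setB]

theorem setB_ne {j j' : Fin m} (hj : j' ≠ j) (s : Fin k → ZMod 2) (x : Ut V m k → ZMod 2)
    (i : Fin k) : setB j s x (Sum.inr (j', i)) = x (Sum.inr (j', i)) := by
  simp [setB, hj]

theorem setH_self (a : V) (c : ZMod 2) (x : Ut V m k → ZMod 2) :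
    setH a c x (Sum.inl a) = c := by
  simp [setH]

theorem setH_ne {a v : V} (hv : v ≠ a) (c : ZMod 2) (x : Ut V m k → ZMod 2) :
    setH a c x (Sum.inl v) = x (Sum.inl v) := by
  simp [setH, hv]

theorem setH_inr (a : V) (c : ZMod 2) (x : Ut V m k → ZMod 2) (p : Fin m × Fin k) :
    setH a c x (Sum.inr p) = x (Sum.inr p) := rfl

variable {S0 : Set (Fin k → ZMod 2)}

theorem set1_mem {x : Ut V m k → ZMod 2} (hx : x ∈ Tgt G h K S0) (Z : Set V) :
    set1 V m k Z x ∈ Tgt G h K S0 := by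
  obtain ⟨h1, h2⟩ := mem_VC_Gr.1 hx.1
  refine ⟨mem_VC_Gr.2 ⟨fun a b hab => ?_, fun p hp => ?_⟩, fun j => hx.2 j⟩
  · exact (h1 a b hab).imp (set1_of_one x) (set1_of_one x)
  · exact (h2 p hp).imp (set1_of_one x) id

theorem setB_mem {x : Ut V m k → ZMod 2} (hx : x ∈ Tgt G h K S0) {j : Fin m}
    {s : Fin k → ZMod 2} (hs : s ∈ S0)
    (hj : ∀ i ∈ K, x (Sum.inl (h (j, i))) = 1 ∨ s i = 1) :
    setB j s x ∈ Tgt G h K S0 := by
  obtain ⟨h1, h2⟩ := mem_VC_Gr.1 hx.1
  refine ⟨mem_VC_Gr.2 ⟨fun a b hab => h1 a b hab, ?_⟩, fun j' => ?_⟩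
  · rintro ⟨j', i⟩ hi
    by_cases hjj : j' = j
    · subst hjj
      rw [setB_self]
      exact hj i hi
    · rw [setB_ne hjj]
      exact h2 _ hi
  · by_cases hjj : j' = j
    · subst hjj
      have : blk j' (setB j' s x) = s := by
        funext i; exact setB_self j' s x i
      rw [this]; exact hs
    · have : blk j' (setB j s x) = blk j' x := by
        funext i; exact setB_ne hjj s x i
      rw [this]; exact hx.2 j'

theorem setH_mem {x : Ut V m k → ZMod 2} (hx : x ∈ Tgt G h K S0) {a : V} (c : ZMod 2)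
    (hG : ∀ b, G.Adj a b → x (Sum.inl b) = 1)
    (hp : ∀ p, h p = a → p.2 ∈ K → x (Sum.inr p) = 1) :
    setH a c x ∈ Tgt G h K S0 := by
  obtain ⟨h1, h2⟩ := mem_VC_Gr.1 hx.1
  refine ⟨mem_VC_Gr.2 ⟨fun u v huv => ?_, fun p hpK => ?_⟩, fun j => hx.2 j⟩
  · by_cases hu : u = a
    · subst hu
      right
      rw [setH_ne (G.ne_of_adj huv).symm]
      exact hG v huv
    · by_cases hv : v = a
      · subst hv
        left
        rw [setH_ne hu]
        exact hG u huv.symm
      · rw [setH_ne hu, setH_ne hv]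
        exact h1 u v huv
  · by_cases hu : h p = a
    · right
      exact hp p hu hpK
    · rw [setH_ne hu]
      exact h2 p hpK

/-- Open a hub: after changes near the hub `a` it can take both values. -/
theorem open_hub (hh : Function.Injective h) (hK : ∀ i ∈ K, ∀ b : ZMod 2, ∃ s ∈ S0, s i = b)
    {x : Ut V m k → ZMod 2} (hx : x ∈ Tgt G h K S0) (a : V) :
    ∃ y ∈ Tgt G h K S0, (∀ v, v ≠ a → ¬ G.Adj a v → (¬ ∃ j, InB h j (Sum.inl a) ∧
      InB h j (Sum.inl v)) → y (Sum.inl v) = x (Sum.inl v)) ∧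
      (∀ p, (¬ ∃ j, InB h j (Sum.inl a) ∧ InB h j (Sum.inr p)) →
        y (Sum.inr p) = x (Sum.inr p)) ∧
      (∀ v, y (Sum.inl v) = 1 ∨ y (Sum.inl v) = x (Sum.inl v)) ∧
      y (Sum.inl a) = 1 ∧ (∀ b, G.Adj a b → y (Sum.inl b) = 1) ∧
      (∀ p, h p = a → p.2 ∈ K → y (Sum.inr p) = 1) ∧ ∀ c, setH a c y ∈ Tgt G h K S0 := by
  classical
  by_cases ha : ∃ p, h p = a
  · obtain ⟨⟨j, i⟩, rfl⟩ := ha
    obtain ⟨s, hs, hsi⟩ : ∃ s ∈ S0, i ∈ K → s i = 1 := by
      by_cases hi : i ∈ K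
      · obtain ⟨s, hs, hs1⟩ := hK i hi 1
        exact ⟨s, hs, fun _ => hs1⟩
      · exact ⟨blk j x, hx.2 j, fun h' => absurd h' hi⟩
    let Z : Set V := {v | v = h (j, i) ∨ G.Adj (h (j, i)) v ∨ ∃ i', h (j, i') = v}
    have h1 := set1_mem hx Z
    have h2 : setB j s (set1 V m k Z x) ∈ Tgt G h K S0 :=
      setB_mem h1 hs fun i' _ => Or.inl (set1_pos x (Or.inr (Or.inr ⟨i', rfl⟩)))
    have e1 : ∀ b, G.Adj (h (j, i)) b → setB j s (set1 V m k Z x) (Sum.inl b) = 1 := by
      intro b hb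
      rw [setB_inl]; exact set1_pos x (Or.inr (Or.inl hb))
    have e2 : ∀ p, h p = h (j, i) → p.2 ∈ K → setB j s (set1 V m k Z x) (Sum.inr p) = 1 := by
      intro p hp hpK
      have := hh hp
      subst this
      rw [setB_self]
      exact hsi hpK
    refine ⟨_, h2, ?_, ?_, ?_, ?_, e1, e2, fun c => setH_mem h2 c e1 e2⟩
    · intro v hv hv1 hv2
      rw [setB_inl, set1_neg]
      rintro (h3 | h3 | ⟨i', h3⟩)
      · exact hv h3
      · exact hv1 h3
      · exact hv2 ⟨j, ⟨i, rfl⟩, ⟨i', h3⟩⟩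
    · rintro ⟨j', i'⟩ hp
      have hjj : j' ≠ j := by
        rintro rfl
        exact hp ⟨j', ⟨i, rfl⟩, rfl⟩
      rw [setB_ne hjj, set1_inr]
    · intro v
      rw [setB_inl]
      by_cases hv : v ∈ Z
      · left; exact set1_pos x hv
      · right; exact set1_neg x hv
    · rw [setB_inl]; exact set1_pos x (Or.inl rfl)
  · let Z : Set V := {v | v = a ∨ G.Adj a v}
    have h1 := set1_mem hx Z
    have e1 : ∀ b, G.Adj a b → set1 V m k Z x (Sum.inl b) = 1 := fun b hb =>
      set1_pos x (Or.inr hb)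
    have e2 : ∀ p, h p = a → p.2 ∈ K → set1 V m k Z x (Sum.inr p) = 1 := fun p hp _ =>
      absurd ⟨p, hp⟩ ha
    refine ⟨_, h1, ?_, ?_, ?_, ?_, e1, e2, fun c => setH_mem h1 c e1 e2⟩
    · intro v hv hv1 _
      rw [set1_neg]
      rintro (h3 | h3)
      · exact hv h3
      · exact hv1 h3
    · intro p _; rfl
    · intro v
      by_cases hv : v ∈ Z
      · left; exact set1_pos x hv
      · right; exact set1_neg x hv
    · exact set1_pos x (Or.inl rfl)

/-- Open a block: after setting its hubs to one it can take all values in `S0`. -/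
theorem open_block {x : Ut V m k → ZMod 2} (hx : x ∈ Tgt G h K S0) (j : Fin m) :
    ∃ y ∈ Tgt G h K S0, (∀ v, (¬ ∃ i, h (j, i) = v) → y (Sum.inl v) = x (Sum.inl v)) ∧
      (∀ p, y (Sum.inr p) = x (Sum.inr p)) ∧ (∀ i, y (Sum.inl (h (j, i))) = 1) ∧
      ∀ s ∈ S0, setB j s y ∈ Tgt G h K S0 := by
  classical
  let Z : Set V := {v | ∃ i, h (j, i) = v}
  have h1 := set1_mem hx Z
  refine ⟨_, h1, ?_, fun p => rfl, ?_, ?_⟩
  · intro v hv
    exact set1_neg x hv
  · intro i; exact set1_pos x ⟨i, rfl⟩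
  · intro s hs
    exact setB_mem h1 hs fun i' _ => Or.inl (set1_pos x ⟨i', rfl⟩)

end

end Pool.Agent.RelNet
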